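import Mathlib

open Finset

namespace Pool.Agent.H109.Thr

section Exp

variable {ι : Type}

/-- total size -/
noncomputable def tot (size : ι → ℕ) (H : ι →₀ ℕ) : ℕ := H.sum fun c m => m * size c

/-- weight -/
noncomputable def wt (x : ι → ℚ) (H : ι →₀ ℕ) : ℚ := H.prod fun c m => x c ^ m / m.factorial

theorem tot_add (size : ι → ℕ) (H H' : ι →₀ ℕ) : tot size (H + H') = tot size H + tot size H' := by
  classical
  unfold tot
  exact Finsupp.sum_add_index' (by simp) (by intros; ring)

theorem tot_single (size : ι → ℕ) (c : ι) (m : ℕ) :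
    tot size (Finsupp.single c m) = m * size c := by
  unfold tot
  exact Finsupp.sum_single_index (by simp)

theorem le_tot (size : ι → ℕ) (H : ι →₀ ℕ) (c : ι) : H c * size c ≤ tot size H := by
  classical
  by_cases hc : c ∈ H.support
  · unfold tot Finsupp.sum
    exact Finset.single_le_sum (f := fun c => H c * size c) (fun _ _ => Nat.zero_le _) hc
  · simp [Finsupp.notMem_support_iff.1 hc]

theorem wt_succ (x : ι → ℚ) (H : ι →₀ ℕ) (c : ι) :
    ((H c + 1 : ℕ) : ℚ) * wt x (H + Finsupp.single c 1) = x c * wt x H := by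
  classical
  have h1 : wt x H = ∏ a ∈ insert c H.support, x a ^ (H a) / (H a).factorial :=
    Finsupp.prod_of_support_subset _ (Finset.subset_insert _ _) _ (by simp)
  have h2 : wt x (H + Finsupp.single c 1) =
      ∏ a ∈ insert c H.support, x a ^ ((H + Finsupp.single c 1 : ι →₀ ℕ) a) /
        ((H + Finsupp.single c 1 : ι →₀ ℕ) a).factorial := by
    refine Finsupp.prod_of_support_subset _ ?_ _ (by simp)
    refine (Finsupp.support_add).trans ?_
    intro a ha
    rcases Finset.mem_union.1 ha with h | h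
    · exact Finset.mem_insert_of_mem h
    · have := Finsupp.support_single_subset h
      rw [Finset.mem_singleton] at this
      rw [this]
      exact Finset.mem_insert_self _ _
  rw [h1, h2, ← Finset.mul_prod_erase _ _ (Finset.mem_insert_self c H.support),
    ← Finset.mul_prod_erase _ (fun a => x a ^ (H a) / ((H a).factorial : ℚ))
      (Finset.mem_insert_self c H.support)]
  have h3 : ∀ a ∈ (insert c H.support).erase c,
      x a ^ ((H + Finsupp.single c 1 : ι →₀ ℕ) a) / (((H + Finsupp.single c 1 : ι →₀ ℕ) a).factorial : ℚ) =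
      x a ^ (H a) / ((H a).factorial : ℚ) := by
    intro a ha
    have hac : a ≠ c := Finset.ne_of_mem_erase ha
    rw [Finsupp.add_apply, Finsupp.single_eq_of_ne hac, add_zero]
  rw [Finset.prod_congr rfl h3]
  rw [Finsupp.add_apply, Finsupp.single_eq_same, pow_succ, Nat.factorial_succ]
  have hf : ((H c).factorial : ℚ) ≠ 0 := by positivity
  have hs : ((H c + 1 : ℕ) : ℚ) ≠ 0 := by positivity
  rw [Nat.cast_mul]
  field_simp

variable {size : ι → ℕ}

theorem finite_tot (hpos : ∀ c, 1 ≤ size c) (hfin : ∀ j, {c | size c ≤ j}.Finite) (d : ℕ) :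
    {H : ι →₀ ℕ | tot size H = d}.Finite := by
  classical
  refine Set.Finite.subset
    (((hfin d).toFinset.finsupp (fun _ => Finset.range (d + 1))).finite_toSet) ?_
  intro H hH
  rw [Set.mem_ofPred_eq] at hH
  have hle : ∀ c, H c * size c ≤ d := fun c => hH ▸ le_tot size H c
  rw [Finset.mem_coe, Finset.mem_finsupp_iff]
  constructor
  · intro c hc
    have h1 : 1 ≤ H c := Nat.one_le_iff_ne_zero.2 (Finsupp.mem_support_iff.1 hc)
    rw [Set.Finite.mem_toFinset, Set.mem_ofPred_eq]
    calc size c = 1 * size c := (one_mul _).symm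
      _ ≤ H c * size c := Nat.mul_le_mul_right _ h1
      _ ≤ d := hle c
  · intro c _
    rw [Finset.mem_range, Nat.lt_succ_iff]
    calc H c = H c * 1 := (mul_one _).symm
      _ ≤ H c * size c := Nat.mul_le_mul_left _ (hpos c)
      _ ≤ d := hle c

/-- The exponential recursion. -/
theorem exp_rec (hpos : ∀ c, 1 ≤ size c) (hfin : ∀ j, {c | size c ≤ j}.Finite) (x : ι → ℚ)
    (d : ℕ) :
    (d : ℚ) * ∑ᶠ H ∈ {H : ι →₀ ℕ | tot size H = d}, wt x H =
      ∑ j ∈ Finset.Icc 1 d, (j : ℚ) * (∑ᶠ c ∈ {c | size c = j}, x c) *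
        ∑ᶠ H ∈ {H : ι →₀ ℕ | tot size H = d - j}, wt x H := by
  classical
  set P : ℕ → Finset (ι →₀ ℕ) := fun d => (finite_tot hpos hfin d).toFinset with hP
  have memP : ∀ d H, H ∈ P d ↔ tot size H = d := fun d H => by
    rw [hP]; simp
  have hS : ∀ d, ∑ᶠ H ∈ {H : ι →₀ ℕ | tot size H = d}, wt x H = ∑ H ∈ P d, wt x H := fun d =>
    finsum_mem_eq_finite_toFinset_sum _ _
  have hfin' : ∀ j, {c | size c = j}.Finite := fun j =>
    (hfin j).subset fun c hc => le_of_eq hc
  have hA : ∀ j, ∑ᶠ c ∈ {c | size c = j}, x c = ∑ c ∈ (hfin' j).toFinset, x c := fun j =>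
    finsum_mem_eq_finite_toFinset_sum _ _
  rw [hS]
  simp only [hA, hS]
  -- left side
  have hL : (d : ℚ) * ∑ H ∈ P d, wt x H =
      ∑ p ∈ (P d).sigma fun H => H.support, (size p.2 : ℚ) * ((p.1 p.2 : ℚ) * wt x p.1) := by
    rw [Finset.sum_sigma, Finset.mul_sum]
    refine Finset.sum_congr rfl fun H hH => ?_
    have := (memP d H).1 hH
    rw [← this]
    unfold tot Finsupp.sum
    push_cast
    rw [Finset.sum_mul]
    exact Finset.sum_congr rfl fun c _ => by ring
  have hR : ∑ j ∈ Finset.Icc 1 d, (j : ℚ) * (∑ c ∈ (hfin' j).toFinset, x c) *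
        ∑ H ∈ P (d - j), wt x H =
      ∑ q ∈ (Finset.Icc 1 d).sigma fun j => (hfin' j).toFinset ×ˢ P (d - j),
        (q.1 : ℚ) * (x q.2.1 * wt x q.2.2) := by
    rw [Finset.sum_sigma]
    refine Finset.sum_congr rfl fun j _ => ?_
    rw [Finset.sum_product, mul_assoc, Finset.sum_mul_sum, Finset.mul_sum]
    exact Finset.sum_congr rfl fun c _ => by rw [Finset.mul_sum]
  rw [hL, hR]
  refine Finset.sum_bij' (fun p _ => ⟨size p.2, p.2, p.1 - Finsupp.single p.2 1⟩)
    (fun q _ => ⟨q.2.2 + Finsupp.single q.2.1 1, q.2.1⟩) ?_ ?_ ?_ ?_ ?_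
  · rintro ⟨H, c⟩ hp
    simp only [Finset.mem_sigma] at hp ⊢
    obtain ⟨hH, hc⟩ := hp
    have hT := (memP d H).1 hH
    have h1 : Finsupp.single c 1 ≤ H := by
      rw [Finsupp.single_le_iff]
      exact Nat.one_le_iff_ne_zero.2 (Finsupp.mem_support_iff.1 hc)
    have h2 : tot size (H - Finsupp.single c 1) + size c = d := by
      have := tot_add size (H - Finsupp.single c 1) (Finsupp.single c 1)
      rw [tsub_add_cancel_of_le h1, hT, tot_single, one_mul] at this
      exact this.symm
    refine ⟨?_, ?_⟩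
    · rw [Finset.mem_Icc]
      exact ⟨hpos c, by omega⟩
    · rw [Finset.mem_product]
      refine ⟨by simp, ?_⟩
      rw [memP]
      show tot size (H - Finsupp.single c 1) = d - size c
      omega
  · rintro ⟨j, c, H⟩ hq
    simp only [Finset.mem_sigma, Finset.mem_product, Set.Finite.mem_toFinset,
      Set.mem_ofPred_eq, Finset.mem_Icc] at hq ⊢
    obtain ⟨⟨hj1, hj2⟩, hc, hH⟩ := hq
    have hT := (memP _ H).1 hH
    refine ⟨?_, ?_⟩
    · rw [memP, tot_add, tot_single, hT, hc]
      omega
    · rw [Finsupp.mem_support_iff]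
      simp
  · rintro ⟨H, c⟩ hp
    simp only [Finset.mem_sigma] at hp
    have h1 : Finsupp.single c 1 ≤ H := by
      rw [Finsupp.single_le_iff]
      exact Nat.one_le_iff_ne_zero.2 (Finsupp.mem_support_iff.1 hp.2)
    simp [tsub_add_cancel_of_le h1]
  · rintro ⟨j, c, H⟩ hq
    simp only [Finset.mem_sigma, Finset.mem_product, Set.Finite.mem_toFinset,
      Set.mem_ofPred_eq, Finset.mem_Icc] at hq
    obtain ⟨_, hc, _⟩ := hq
    subst hc
    simp
  · rintro ⟨H, c⟩ hp
    simp only [Finset.mem_sigma] at hp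
    have h1 : Finsupp.single c 1 ≤ H := by
      rw [Finsupp.single_le_iff]
      exact Nat.one_le_iff_ne_zero.2 (Finsupp.mem_support_iff.1 hp.2)
    have h2 := wt_succ x (H - Finsupp.single c 1) c
    rw [tsub_add_cancel_of_le h1] at h2
    have h3 : (H - Finsupp.single c 1 : ι →₀ ℕ) c + 1 = H c := by
      have := Finsupp.single_le_iff.1 h1
      simp only [Finsupp.coe_tsub, Pi.sub_apply, Finsupp.single_eq_same]
      omega
    rw [h3] at h2
    show (size c : ℚ) * ((H c : ℚ) * wt x H) = _
    rw [h2]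

theorem exp_zero (hpos : ∀ c, 1 ≤ size c) (x : ι → ℚ) :
    ∑ᶠ H ∈ {H : ι →₀ ℕ | tot size H = 0}, wt x H = 1 := by
  classical
  have : {H : ι →₀ ℕ | tot size H = 0} = {0} := by
    ext H
    simp only [Set.mem_ofPred_eq, Set.mem_singleton_iff]
    constructor
    · intro h
      ext c
      have := le_tot size H c
      rw [h] at this
      have h1 := hpos c
      simp only [Finsupp.coe_zero, Pi.zero_apply]
      rcases Nat.eq_zero_or_pos (H c) with h0 | h0
      · exact h0
      · have := Nat.mul_pos h0 h1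
        omega
    · rintro rfl
      simp [tot]
  rw [this, finsum_mem_singleton]
  simp [wt]

/-- The sums when the connected contributions are `- m c ^ s / s` at `3 s`. -/
theorem exp_special (hpos : ∀ c, 1 ≤ size c) (hfin : ∀ j, {c | size c ≤ j}.Finite)
    (x : ι → ℚ) (m : ℕ) (b : ℚ) (hb : b ≠ 0)
    (h3 : ∀ s, 1 ≤ s → ∑ᶠ c ∈ {c | size c = 3 * s}, x c = - (m : ℚ) * b ^ s / s)
    (h0 : ∀ j, ¬ 3 ∣ j → ∑ᶠ c ∈ {c | size c = j}, x c = 0) :
    (∀ d, 3 * m < d → ∑ᶠ H ∈ {H : ι →₀ ℕ | tot size H = d}, wt x H = 0) ∧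
      ∑ᶠ H ∈ {H : ι →₀ ℕ | tot size H = 3 * m}, wt x H ≠ 0 := by
  classical
  set S : ℕ → ℚ := fun d => ∑ᶠ H ∈ {H : ι →₀ ℕ | tot size H = d}, wt x H with hS
  have hrec : ∀ d : ℕ, (d : ℚ) * S d = ∑ j ∈ Finset.Icc 1 d,
      (j : ℚ) * (∑ᶠ c ∈ {c | size c = j}, x c) * S (d - j) := fun d =>
    exp_rec hpos hfin x d
  -- only multiples of three contribute
  have hrec2 : ∀ d : ℕ, (d : ℚ) * S d = ∑ i ∈ Finset.Icc 1 (d / 3),
      (-3 * (m : ℚ) * b ^ i) * S (d - 3 * i) := by
    intro d
    rw [hrec d]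
    have himg : (Finset.Icc 1 (d / 3)).image (fun i => 3 * i) ⊆ Finset.Icc 1 d := by
      intro j hj
      obtain ⟨i, hi, rfl⟩ := Finset.mem_image.1 hj
      rw [Finset.mem_Icc] at hi ⊢
      omega
    rw [← Finset.sum_subset himg]
    · rw [Finset.sum_image (by intro a _ b _ h; simpa using h)]
      refine Finset.sum_congr rfl fun i hi => ?_
      rw [Finset.mem_Icc] at hi
      rw [h3 i hi.1]
      have : (i : ℚ) ≠ 0 := by
        have := hi.1
        positivity
      push_cast
      field_simp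
    · intro j hj hj'
      have : ¬ 3 ∣ j := by
        rintro ⟨i, rfl⟩
        refine hj' (Finset.mem_image.2 ⟨i, ?_, rfl⟩)
        rw [Finset.mem_Icc] at hj ⊢
        omega
      rw [h0 j this]
      ring
  have hstep : ∀ d : ℕ, 3 ≤ d → (d : ℚ) * S d = b * ((d : ℚ) - 3 - 3 * m) * S (d - 3) := by
    intro d hd
    have e1 : Finset.Icc 1 (d / 3) = insert 1 ((Finset.Icc 1 ((d - 3) / 3)).image (· + 1)) := by
      ext i
      simp only [Finset.mem_Icc, Finset.mem_insert, Finset.mem_image]
      constructor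
      · rintro ⟨h1, h2⟩
        rcases Nat.eq_or_lt_of_le h1 with h | h
        · exact Or.inl h.symm
        · exact Or.inr ⟨i - 1, by omega, by omega⟩
      · rintro (rfl | ⟨a, ha, rfl⟩)
        · omega
        · omega
    have e2 : (1 : ℕ) ∉ (Finset.Icc 1 ((d - 3) / 3)).image (· + 1) := by
      simp only [Finset.mem_Icc, Finset.mem_image, not_exists, not_and]
      intro a ha h
      omega
    have h1 := hrec2 d
    have h2 := hrec2 (d - 3)
    rw [e1, Finset.sum_insert e2, Finset.sum_image (by intro a _ b _ h; simpa using h)] at h1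
    have e3 : ∑ i ∈ Finset.Icc 1 ((d - 3) / 3), (-3 * (m : ℚ) * b ^ (i + 1)) *
        S (d - 3 * (i + 1)) = b * ∑ i ∈ Finset.Icc 1 ((d - 3) / 3),
          (-3 * (m : ℚ) * b ^ i) * S (d - 3 - 3 * i) := by
      rw [Finset.mul_sum]
      refine Finset.sum_congr rfl fun i _ => ?_
      rw [show d - 3 * (i + 1) = d - 3 - 3 * i by omega, pow_succ]
      ring
    rw [e3, ← h2] at h1
    rw [h1, Nat.cast_sub hd]
    push_cast
    ring_nf
  have hS0 : S 0 = 1 := exp_zero hpos x
  have hsmall : ∀ d : ℕ, d = 1 ∨ d = 2 → S d = 0 := by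
    intro d hd
    have h := hrec2 d
    rcases hd with rfl | rfl
    · simpa using h
    · simpa using h
  have hmod : ∀ d : ℕ, ¬ 3 ∣ d → S d = 0 := by
    intro d
    induction d using Nat.strong_induction_on with
    | _ d ih =>
      intro hd
      by_cases h : d < 3
      · have : d = 1 ∨ d = 2 := by
          rcases Nat.eq_zero_or_pos d with h0 | h0
          · exact absurd (h0 ▸ dvd_zero 3) hd
          · omega
        exact hsmall d this
      · push Not at h
        have h1 := hstep d h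
        rw [ih (d - 3) (by omega) (by omega), mul_zero] at h1
        have : (d : ℚ) ≠ 0 := by
          have : 0 < d := by omega
          positivity
        exact (mul_eq_zero.1 h1).resolve_left this
  have hnz : ∀ s : ℕ, s ≤ m → S (3 * s) ≠ 0 := by
    intro s
    induction s with
    | zero => intro _; simp [hS0]
    | succ s ih =>
      intro hs h
      have h1 := hstep (3 * (s + 1)) (by omega)
      rw [h, mul_zero] at h1
      have h2 : 3 * (s + 1) - 3 = 3 * s := by omega
      rw [h2] at h1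
      have h3 := ih (by omega)
      rcases mul_eq_zero.1 h1.symm with h4 | h4
      · rcases mul_eq_zero.1 h4 with h5 | h5
        · exact hb h5
        · have h6 : ((s : ℚ)) = m := by
            push_cast at h5
            linarith
          have : s = m := by exact_mod_cast h6
          omega
      · exact h3 h4
  have hz : ∀ s : ℕ, S (3 * (m + 1 + s)) = 0 := by
    intro s
    induction s with
    | zero =>
      have h1 := hstep (3 * (m + 1)) (by omega)
      have h2 : ((3 * (m + 1) : ℕ) : ℚ) - 3 - 3 * m = 0 := by push_cast; ring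
      rw [h2, mul_zero, zero_mul] at h1
      have : ((3 * (m + 1) : ℕ) : ℚ) ≠ 0 := by positivity
      simpa using (mul_eq_zero.1 h1).resolve_left this
    | succ s ih =>
      have h1 := hstep (3 * (m + 1 + (s + 1))) (by omega)
      rw [show 3 * (m + 1 + (s + 1)) - 3 = 3 * (m + 1 + s) by omega, ih, mul_zero] at h1
      have : ((3 * (m + 1 + (s + 1)) : ℕ) : ℚ) ≠ 0 := by positivity
      exact (mul_eq_zero.1 h1).resolve_left this
  refine ⟨fun d hd => ?_, hnz m le_rfl⟩
  by_cases h : 3 ∣ d
  · obtain ⟨s, rfl⟩ := h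
    have : s = m + 1 + (s - (m + 1)) := by omega
    rw [this]
    exact hz _
  · exact hmod d h

end Exp

end Pool.Agent.H109.Thr
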