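import Pool.Agent.H109.Thr.Defs
import Pool.Agent.H109.Thr.Exp

open Finset

namespace Pool.Agent.H109.Thr

variable {n : ℕ}

theorem mem_verts {G : MHyp n} {v : Fin n} : v ∈ verts G ↔ ∃ e ∈ G, v ∈ e := by
  simp [verts]

theorem relabel_congr {G : MHyp n} {σ τ : Equiv.Perm (Fin n)}
    (h : ∀ v ∈ verts G, σ v = τ v) : relabel σ G = relabel τ G := by
  unfold relabel
  refine Multiset.map_congr rfl fun e he => ?_
  ext v
  simp only [Finset.mem_map, Equiv.toEmbedding_apply]
  constructor
  · rintro ⟨a, ha, rfl⟩
    exact ⟨a, ha, (h a (mem_verts.2 ⟨e, he, ha⟩)).symm⟩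
  · rintro ⟨a, ha, rfl⟩
    exact ⟨a, ha, h a (mem_verts.2 ⟨e, he, ha⟩)⟩

theorem verts_relabel {G : MHyp n} (σ : Equiv.Perm (Fin n)) (v : Fin n) :
    σ v ∈ verts (relabel σ G) ↔ v ∈ verts G := by
  rw [mem_verts, mem_verts]
  unfold relabel
  constructor
  · rintro ⟨e, he, hv⟩
    obtain ⟨e', he', rfl⟩ := Multiset.mem_map.1 he
    refine ⟨e', he', ?_⟩
    simpa using hv
  · rintro ⟨e, he, hv⟩
    exact ⟨_, Multiset.mem_map_of_mem _ he, by simpa using hv⟩

theorem verts_flat (G : MHyp n) : verts (flat G) = verts G := by
  ext v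
  rw [mem_verts, mem_verts]
  simp [flat]

/-- The permutations fixing a set pointwise. -/
def fixers (A : Finset (Fin n)) : Finset (Equiv.Perm (Fin n)) :=
  univ.filter fun σ => ∀ v ∈ A, σ v = v

theorem fixers_pos (A : Finset (Fin n)) : 0 < (fixers A).card :=
  Finset.card_pos.2 ⟨1, by simp [fixers]⟩

theorem autCard_pos (G : MHyp n) : 0 < autCard G := by
  classical
  unfold autCard
  exact Finset.card_pos.2 ⟨1, by simp [relabel_one]⟩

theorem stab_card (G : MHyp n) :
    (univ.filter fun σ : Equiv.Perm (Fin n) => relabel σ G = G).card =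
      autCard G * (fixers (verts G)).card := by
  classical
  unfold autCard
  rw [← Finset.card_product]
  symm
  refine Finset.card_bij (fun p _ => p.1 * p.2) ?_ ?_ ?_
  · rintro ⟨σ, τ⟩ h
    simp only [Finset.mem_product, Finset.mem_filter, Finset.mem_univ, true_and, fixers] at h ⊢
    rw [relabel_mul, relabel_congr (σ := τ) (τ := 1) (fun v hv => by simpa using h.2 v hv),
      relabel_one]
    exact h.1.2
  · rintro ⟨σ, τ⟩ h ⟨σ', τ'⟩ h' heq
    simp only [Finset.mem_product, Finset.mem_filter, Finset.mem_univ, true_and, fixers] at h h' heq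
    have h1 : σ = σ' := by
      ext v
      by_cases hv : v ∈ verts G
      · have := congrArg (fun ρ : Equiv.Perm (Fin n) => ρ v) heq
        simp only [Equiv.Perm.mul_apply] at this
        rw [h.2 v hv, h'.2 v hv] at this
        rw [this]
      · rw [h.1.1 v hv, h'.1.1 v hv]
    subst h1
    rw [mul_left_cancel heq]
  · intro ρ hρ
    simp only [Finset.mem_filter, Finset.mem_univ, true_and] at hρ
    have hiff : ∀ v, ρ v ∈ verts G ↔ v ∈ verts G := by
      intro v
      conv_lhs => rw [← hρ]
      exact verts_relabel ρ v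
    set σ : Equiv.Perm (Fin n) := Equiv.Perm.ofSubtype (ρ.subtypePerm hiff) with hσ
    have h1 : ∀ v ∈ verts G, σ v = ρ v := by
      intro v hv
      rw [hσ, Equiv.Perm.ofSubtype_apply_of_mem _ hv]
      rfl
    have h2 : ∀ v, v ∉ verts G → σ v = v := by
      intro v hv
      rw [hσ, Equiv.Perm.ofSubtype_apply_of_not_mem _ hv]
    refine ⟨(σ, σ⁻¹ * ρ), ?_, ?_⟩
    · simp only [Finset.mem_product, Finset.mem_filter, Finset.mem_univ, true_and, fixers]
      refine ⟨⟨h2, ?_⟩, ?_⟩
      · rw [relabel_congr h1, hρ]
      · intro v hv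
        rw [Equiv.Perm.mul_apply, ← h1 v hv]
        simp
    · simp

theorem count_orbit (G : MHyp n) (X : Finset (MHyp n)) [DecidablePred fun G' => Iso G G'] :
    (univ.filter fun σ : Equiv.Perm (Fin n) => relabel σ G ∈ X).card =
      (X.filter fun G' => Iso G G').card *
        (univ.filter fun σ : Equiv.Perm (Fin n) => relabel σ G = G).card := by
  classical
  rw [Finset.card_eq_sum_card_fiberwise (f := fun σ => relabel σ G)
    (t := X.filter fun G' => Iso G G')]
  · rw [Finset.sum_const_nat (m := (univ.filter fun σ : Equiv.Perm (Fin n) =>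
      relabel σ G = G).card)]
    intro G' hG'
    rw [Finset.mem_filter] at hG'
    obtain ⟨hX, σ₀, hσ₀⟩ := hG'
    refine Finset.card_bij (fun σ _ => σ₀⁻¹ * σ) ?_ ?_ ?_
    · intro σ hσ
      simp only [Finset.mem_filter, Finset.mem_univ, true_and] at hσ ⊢
      rw [relabel_mul, hσ.2, ← hσ₀, ← relabel_mul, inv_mul_cancel, relabel_one]
    · intro σ _ σ' _ h
      exact mul_left_cancel h
    · intro ρ hρ
      simp only [Finset.mem_filter, Finset.mem_univ, true_and] at hρ
      refine ⟨σ₀ * ρ, ?_, by simp⟩
      simp only [Finset.mem_filter, Finset.mem_univ, true_and]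
      rw [relabel_mul, hρ, hσ₀]
      exact ⟨hX, rfl⟩
  · intro σ hσ
    simp only [Finset.coe_filter, Finset.mem_univ, true_and, Set.mem_ofPred_eq] at hσ ⊢
    exact ⟨hσ, σ, rfl⟩

/-- The number of labelled copies. -/
theorem copies (ℋ : Finset (Finset (Fin n))) (G : MHyp n) (X : Finset (MHyp n))
    [DecidablePred fun G' => Iso G G']
    (hX : ∀ G', Iso G G' → (G' ∈ X ↔ ∀ e ∈ G', e ∈ ℋ)) :
    autCard (flat G) * subCard ℋ (flat G) = autCard G * (X.filter fun G' => Iso G G').card := by
  classical
  set Y : Finset (MHyp n) := ℋ.powerset.image Finset.val with hY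
  have h1 := count_orbit G X
  have h2 := count_orbit (flat G) Y
  have h3 : (univ.filter fun σ : Equiv.Perm (Fin n) => relabel σ G ∈ X) =
      univ.filter fun σ : Equiv.Perm (Fin n) => relabel σ (flat G) ∈ Y := by
    ext σ
    simp only [Finset.mem_filter, Finset.mem_univ, true_and]
    rw [hX _ ⟨σ, rfl⟩, hY, Finset.mem_image]
    constructor
    · intro h
      have hnd : (relabel σ (flat G)).Nodup := by
        unfold relabel flat
        exact (Multiset.nodup_dedup G).map (Finset.map_injective _)
      refine ⟨⟨_, hnd⟩, ?_, rfl⟩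
      rw [Finset.mem_powerset]
      intro e he
      refine h e ?_
      rw [Finset.mem_mk] at he
      unfold relabel flat at he
      unfold relabel
      obtain ⟨a, ha, rfl⟩ := Multiset.mem_map.1 he
      exact Multiset.mem_map_of_mem _ (Multiset.mem_dedup.1 ha)
    · rintro ⟨S, hS, hSe⟩ e he
      rw [Finset.mem_powerset] at hS
      refine hS ?_
      rw [← Finset.mem_val, hSe]
      unfold relabel at he ⊢
      obtain ⟨a, ha, rfl⟩ := Multiset.mem_map.1 he
      exact Multiset.mem_map_of_mem _ (Multiset.mem_dedup.2 ha)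
  have h4 : (Y.filter fun G' => Iso (flat G) G').card = subCard ℋ (flat G) := by
    unfold subCard
    rw [hY, Finset.filter_image, Finset.card_image_of_injective _ Finset.val_injective]
    congr 1
    ext S
    simp only [Finset.mem_filter]
    exact and_congr_right fun _ => ⟨iso_symm, iso_symm⟩
  rw [h3, h2, h4, stab_card, stab_card, verts_flat] at h1
  have h5 := fixers_pos (verts G)
  have h6 : autCard (flat G) * subCard ℋ (flat G) * (fixers (verts G)).card =
      autCard G * (X.filter fun G' => Iso G G').card * (fixers (verts G)).card := by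
    calc _ = subCard ℋ (flat G) * (autCard (flat G) * (fixers (verts G)).card) := by ring
      _ = _ := h1
      _ = _ := by ring
  exact Nat.eq_of_mul_eq_mul_right h5 h6

section

variable {k : ℕ} {ℋ : Finset (Finset (Fin n))}

theorem rep_inj {c c' : Cls k ℋ} (h : rep c = rep c') : c = c' := by
  have : Quotient.out c = Quotient.out c' := Subtype.ext h
  rw [← Quotient.out_eq c, this, Quotient.out_eq]

theorem rep_mk (G : Comp k ℋ) : Iso (rep (Quotient.mk _ G : Cls k ℋ)) G.1 :=
  Quotient.mk_out G

/-- The number of edges of a class. -/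
noncomputable def csize (c : Cls k ℋ) : ℕ := Multiset.card (rep c)

theorem iso_card {G G' : MHyp n} (h : Iso G G') : Multiset.card G = Multiset.card G' := by
  obtain ⟨σ, rfl⟩ := h
  simp [relabel]

theorem csize_mk (G : Comp k ℋ) : csize (Quotient.mk _ G : Cls k ℋ) = Multiset.card G.1 :=
  iso_card (rep_mk G)

theorem csize_pos (c : Cls k ℋ) : 1 ≤ csize c := by
  unfold csize rep
  rw [Nat.one_le_iff_ne_zero, Ne, Multiset.card_eq_zero]
  exact (Quotient.out c).2.2.1.1

theorem csize_fin (j : ℕ) : {c : Cls k ℋ | csize c ≤ j}.Finite := by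
  classical
  have h : {G : MHyp n | Multiset.card G ≤ j}.Finite := by
    refine Set.Finite.subset
      (Multiset.finite_toSet (Multiset.powerset (j • (univ : Finset (Finset (Fin n))).val))) ?_
    intro G hG
    rw [Set.mem_ofPred_eq] at hG
    show G ∈ Multiset.powerset _
    rw [Multiset.mem_powerset, Multiset.le_iff_count]
    intro e
    rw [Multiset.count_nsmul, Multiset.count_eq_one_of_mem (Finset.nodup _) (Finset.mem_univ e),
      mul_one]
    exact (Multiset.count_le_card e G).trans hG
  exact Set.Finite.of_injOn (f := rep) (fun c hc => hc) (fun c _ c' _ h => rep_inj h) h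

/-- The weight of a class of connected hypergraphs. -/
noncomputable def xw (k v : ℕ) (ℋ : Finset (Finset (Fin n))) (c : Cls k ℋ) : ℚ :=
  -((k : ℚ) - 1) ^ v * coef (rep c) *
    ((autCard (flat (rep c)) : ℚ) * (subCard ℋ (flat (rep c)) : ℚ) / (autCard (rep c) : ℚ))

theorem term_eq (v : ℕ) (H : Vcls k ℋ) :
    (-((k : ℚ) - 1) ^ v) ^ compsOf H * coefOf H * occOf H = wt (xw k v ℋ) H := by
  classical
  unfold compsOf coefOf occOf autOf wt Finsupp.prod Finsupp.sum xw
  rw [← Finset.prod_pow_eq_pow_sum, ← Finset.prod_mul_distrib, Nat.cast_prod, one_div,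
    ← Finset.prod_inv_distrib, ← Finset.prod_mul_distrib, ← Finset.prod_mul_distrib]
  refine Finset.prod_congr rfl fun c _ => ?_
  have h1 : ((autCard (rep c) : ℕ) : ℚ) ≠ 0 := by
    have := autCard_pos (rep c)
    positivity
  have h2 : (((H c).factorial : ℕ) : ℚ) ≠ 0 := by positivity
  push_cast
  simp only [mul_pow, div_pow]
  field_simp

theorem codegreeSum_eq (v d : ℕ) :
    codegreeSum k v ℋ d = ∑ᶠ H ∈ {H : Vcls k ℋ | tot csize H = d}, wt (xw k v ℋ) H := by
  unfold codegreeSum
  simp only [term_eq]
  rfl

/-- The sum of the weights of the classes with `j` edges, as a sum over labelled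
hypergraphs. -/
theorem sum_xw {α : Type} (v j : ℕ) (I : Finset α) (g : α → Comp k ℋ)
    (ginj : ∀ p ∈ I, ∀ q ∈ I, g p = g q → p = q)
    (gcard : ∀ p ∈ I, Multiset.card (g p).1 = j)
    (gall : ∀ G : Comp k ℋ, Multiset.card G.1 = j → ∃ p ∈ I, g p = G)
    (hcoef : ∀ p ∈ I, ∀ q ∈ I, Iso (g p).1 (g q).1 → coef (g p).1 = coef (g q).1) :
    ∑ᶠ c ∈ {c : Cls k ℋ | csize c = j}, xw k v ℋ c =
      -((k : ℚ) - 1) ^ v * ∑ p ∈ I, coef (g p).1 := by
  classical
  have hset : {c : Cls k ℋ | csize c = j} =
      ((I.image fun p => (Quotient.mk _ (g p) : Cls k ℋ) : Finset (Cls k ℋ)) :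
        Set (Cls k ℋ)) := by
    ext c
    simp only [Set.mem_ofPred_eq, Finset.coe_image, Set.mem_image, Finset.mem_coe]
    constructor
    · intro hc
      obtain ⟨p, hp, hpc⟩ := gall (Quotient.out c) hc
      exact ⟨p, hp, by rw [hpc, Quotient.out_eq]⟩
    · rintro ⟨p, hp, rfl⟩
      rw [csize_mk, gcard p hp]
  rw [hset, finsum_mem_coe_finset, Finset.mul_sum]
  refine Finset.sum_image' _ fun p hp => ?_
  -- the value of the weight at the class of `g p`
  set c : Cls k ℋ := Quotient.mk _ (g p) with hc
  obtain ⟨q, hq, hqc⟩ := gall (Quotient.out c) (by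
    have := csize_mk (g p)
    rw [← hc] at this
    unfold csize rep at this
    rw [this, gcard p hp])
  have hrep : rep c = (g q).1 := by unfold rep; rw [hqc]
  set X : Finset (MHyp n) := I.image fun p => (g p).1 with hXdef
  have hX : ∀ G', Iso (rep c) G' → (G' ∈ X ↔ ∀ e ∈ G', e ∈ ℋ) := by
    intro G' hG'
    constructor
    · intro h
      obtain ⟨r, hr, rfl⟩ := Finset.mem_image.1 h
      exact (g r).2.2.2
    · intro h
      have hV : Veblen k G' ∧ Conn G' := by
        obtain ⟨σ, rfl⟩ := hG'
        have hv := (Quotient.out c).2.1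
        have hcn := (Quotient.out c).2.2.1
        constructor
        · constructor
          · intro e he
            unfold relabel at he
            obtain ⟨a, ha, rfl⟩ := Multiset.mem_map.1 he
            rw [Finset.card_map]
            exact hv.1 a ha
          · intro w
            have h1 := hv.2 (σ⁻¹ w)
            unfold relabel
            rw [Multiset.filter_map, Multiset.card_map]
            have h2 : Multiset.filter ((fun e => w ∈ e) ∘ Finset.map σ.toEmbedding)
                (Quotient.out c).1 = Multiset.filter (fun e => σ⁻¹ w ∈ e) (Quotient.out c).1 := by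
              refine Multiset.filter_congr fun e _ => ?_
              simp only [Function.comp, Finset.mem_map, Equiv.toEmbedding_apply]
              constructor
              · rintro ⟨a, ha, rfl⟩
                simpa using ha
              · intro ha
                exact ⟨_, ha, by simp⟩
            exact h2 ▸ h1
        · constructor
          · intro h0
            apply hcn.1
            unfold relabel at h0
            exact Multiset.map_eq_zero.1 h0
          · intro A hA
            have h1 := hcn.2 (A.map (σ⁻¹).toEmbedding) (by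
              intro e he
              have := hA (e.map σ.toEmbedding) (Multiset.mem_map_of_mem _ he)
              rcases this with h | h
              · left
                intro a ha
                have : σ a ∈ A := h (Finset.mem_map_of_mem _ ha)
                exact Finset.mem_map.2 ⟨σ a, this, by simp⟩
              · right
                rw [Finset.disjoint_left] at h ⊢
                intro a ha ha'
                obtain ⟨b, hb, rfl⟩ := Finset.mem_map.1 ha'
                refine h (Finset.mem_map_of_mem _ ha) ?_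
                simpa using hb)
            rcases h1 with h1 | h1
            · left
              intro e he
              obtain ⟨a, ha, rfl⟩ := Multiset.mem_map.1 he
              intro w hw
              obtain ⟨u, hu, rfl⟩ := Finset.mem_map.1 hw
              obtain ⟨b, hb, hbu⟩ := Finset.mem_map.1 (h1 a ha hu)
              have : σ u = b := by
                rw [← hbu]; simp
              show σ u ∈ A
              rw [this]; exact hb
            · right
              intro e he
              obtain ⟨a, ha, rfl⟩ := Multiset.mem_map.1 he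
              have h2 := h1 a ha
              rw [Finset.disjoint_left] at h2 ⊢
              intro w hw hwA
              obtain ⟨u, hu, rfl⟩ := Finset.mem_map.1 hw
              refine h2 hu (Finset.mem_map.2 ⟨σ u, hwA, by simp⟩)
      have hcard : Multiset.card G' = j := by
        rw [← iso_card hG', hrep, gcard q hq]
      obtain ⟨r, hr, hr'⟩ := gall ⟨G', hV.1, hV.2, h⟩ hcard
      exact Finset.mem_image.2 ⟨r, hr, by rw [hr']⟩
  have hcop := copies ℋ (rep c) X hX
  have hN : (X.filter fun G' => Iso (rep c) G').card =
      (I.filter fun r => (Quotient.mk _ (g r) : Cls k ℋ) = c).card := by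
    rw [hXdef, Finset.filter_image, Finset.card_image_of_injOn]
    · congr 1
      refine Finset.filter_congr fun r _ => ?_
      constructor
      · intro h
        rw [← Quotient.out_eq c]
        exact Quotient.sound (iso_symm h)
      · intro h
        rw [← h]
        exact rep_mk (g r)
    · intro a ha b hb hab
      rw [Finset.mem_coe, Finset.mem_filter] at ha hb
      exact ginj a ha.1 b hb.1 (Subtype.ext hab)
  have hval : xw k v ℋ c = -((k : ℚ) - 1) ^ v * coef (g q).1 *
      ((I.filter fun r => (Quotient.mk _ (g r) : Cls k ℋ) = c).card : ℚ) := by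
    unfold xw
    have h1 : ((autCard (rep c) : ℕ) : ℚ) ≠ 0 := by
      have := autCard_pos (rep c)
      positivity
    have h2 : ((autCard (flat (rep c)) : ℚ) * (subCard ℋ (flat (rep c)) : ℚ)) =
        (autCard (rep c) : ℚ) * ((I.filter fun r =>
          (Quotient.mk _ (g r) : Cls k ℋ) = c).card : ℚ) := by
      rw [← hN]
      exact_mod_cast hcop
    rw [h2, hrep]
    rw [hrep] at h1
    field_simp
  rw [hval]
  have hsum : ∑ r ∈ I.filter (fun r => (Quotient.mk _ (g r) : Cls k ℋ) = c),
      -((k : ℚ) - 1) ^ v * coef (g r).1 =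
      ∑ r ∈ I.filter (fun r => (Quotient.mk _ (g r) : Cls k ℋ) = c),
      -((k : ℚ) - 1) ^ v * coef (g q).1 := by
    refine Finset.sum_congr rfl fun r hr => ?_
    rw [Finset.mem_filter] at hr
    have : Iso (g r).1 (g q).1 := by
      rw [← hrep, ← hr.2]
      exact iso_symm (rep_mk (g r))
    rw [hcoef r hr.1 q hq this]
  rw [hsum, Finset.sum_const, nsmul_eq_mul]
  ring

end

end Pool.Agent.H109.Thr
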