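import Pool.Agent.H109.Thr.Tau

open Finset

namespace Pool.Agent.H109.Thr

/-- The two edges. -/
def eA : Finset (Fin 4) := {0, 1, 2}

/-- The two edges. -/
def eB : Finset (Fin 4) := {0, 1, 3}

/-- The Veblen hypergraph with `3 p` copies of `eA` and `3 q` copies of `eB`. -/
def hyp (p q : ℕ) : MHyp 4 := Multiset.replicate (3 * p) eA + Multiset.replicate (3 * q) eB

theorem eA_ne_eB : eA ≠ eB := by decide

theorem card_hyp (p q : ℕ) : Multiset.card (hyp p q) = 3 * (p + q) := by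
  simp [hyp, mul_add]

theorem coef_eq {n : ℕ} (G : MHyp n) (N : ℕ) (h : Multiset.card G = N) [DecidablePred fun R : Stars n N =>
      ((∀ i, (R i).2 ∈ (R i).1) ∧ Monotone (fun i => (R i).2) ∧
        Multiset.map (fun i => (R i).1) univ.val = G) ∧ Eulerian (arcs R)] :
    coef G = ∑ R ∈ univ.filter (fun R : Stars n N =>
      ((∀ i, (R i).2 ∈ (R i).1) ∧ Monotone (fun i => (R i).2) ∧
        Multiset.map (fun i => (R i).1) univ.val = G) ∧ Eulerian (arcs R)),
    (tau (arcs R) : ℚ) / ∏ v ∈ dverts (arcs R), (inDeg (arcs R) v : ℚ) := by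
  classical
  subst h
  unfold coef IsRooting
  refine Finset.sum_congr ?_ fun _ _ => rfl
  ext R
  simp only [Finset.mem_filter]

/-- The number of stars with given centre and edge. -/
def cnt {N : ℕ} (R : Stars 4 N) (u : Fin 4) (e : Finset (Fin 4)) : ℕ :=
  (univ.filter fun i => (R i).2 = u ∧ (R i).1 = e).card

theorem arcs_eq {N : ℕ} (R : Stars 4 N) (he : ∀ i, (R i).1 = eA ∨ (R i).1 = eB) (u v : Fin 4) :
    arcs R u v = (if v ∈ eA ∧ v ≠ u then cnt R u eA else 0) +
      (if v ∈ eB ∧ v ≠ u then cnt R u eB else 0) := by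
  unfold arcs cnt
  simp only [Finset.card_filter]
  have h1 : ∀ (P : Prop) [Decidable P] (f : Fin N → ℕ),
      (if P then ∑ i, f i else 0) = ∑ i, if P then f i else 0 := by
    intro P _ f
    split_ifs <;> simp
  rw [h1, h1, ← Finset.sum_add_distrib]
  refine Finset.sum_congr rfl fun i _ => ?_
  have hAB := eA_ne_eB
  rcases he i with h | h
  · rw [h]
    by_cases h2 : (R i).2 = u <;> by_cases h3 : v ∈ eA <;> by_cases h4 : v ≠ u <;>
      simp [h2, h3, h4, hAB]
  · rw [h]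
    by_cases h2 : (R i).2 = u <;> by_cases h3 : v ∈ eB <;> by_cases h4 : v ≠ u <;>
      simp [h2, h3, h4, hAB.symm]

/-- The explicit description of the rootings which give an Eulerian digraph. -/
def Good {N : ℕ} (R : Stars 4 N) (p q : ℕ) : Prop :=
  (∀ i, (R i).2 ∈ (R i).1) ∧ Monotone (fun i => (R i).2) ∧
    (∀ i, (R i).1 = eA ∨ (R i).1 = eB) ∧
    cnt R 0 eA + cnt R 0 eB = p + q ∧ cnt R 1 eA + cnt R 1 eB = p + q ∧
    cnt R 2 eA = p ∧ cnt R 3 eB = q ∧ cnt R 0 eA + cnt R 1 eA = 2 * p ∧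
    cnt R 0 eB + cnt R 1 eB = 2 * q

theorem cnt_two {N : ℕ} (R : Stars 4 N) (h : ∀ i, (R i).2 ∈ (R i).1) : cnt R 2 eB = 0 := by
  unfold cnt
  rw [Finset.card_eq_zero, Finset.filter_eq_empty_iff]
  rintro i _ ⟨h1, h2⟩
  have := h i
  rw [h1, h2] at this
  exact absurd this (by decide)

theorem cnt_three {N : ℕ} (R : Stars 4 N) (h : ∀ i, (R i).2 ∈ (R i).1) : cnt R 3 eA = 0 := by
  unfold cnt
  rw [Finset.card_eq_zero, Finset.filter_eq_empty_iff]
  rintro i _ ⟨h1, h2⟩
  have := h i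
  rw [h1, h2] at this
  exact absurd this (by decide)

/-- The arc multiplicities. -/
theorem arcs_table {N : ℕ} (R : Stars 4 N) (h : ∀ i, (R i).2 ∈ (R i).1)
    (he : ∀ i, (R i).1 = eA ∨ (R i).1 = eB) :
    (arcs R 0 0 = 0 ∧ arcs R 0 1 = cnt R 0 eA + cnt R 0 eB ∧ arcs R 0 2 = cnt R 0 eA ∧
      arcs R 0 3 = cnt R 0 eB) ∧
    (arcs R 1 0 = cnt R 1 eA + cnt R 1 eB ∧ arcs R 1 1 = 0 ∧ arcs R 1 2 = cnt R 1 eA ∧
      arcs R 1 3 = cnt R 1 eB) ∧
    (arcs R 2 0 = cnt R 2 eA ∧ arcs R 2 1 = cnt R 2 eA ∧ arcs R 2 2 = 0 ∧ arcs R 2 3 = 0) ∧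
    (arcs R 3 0 = cnt R 3 eB ∧ arcs R 3 1 = cnt R 3 eB ∧ arcs R 3 2 = 0 ∧ arcs R 3 3 = 0) := by
  have h2 := cnt_two R h
  have h3 := cnt_three R h
  have m : (0 : Fin 4) ∈ eA ∧ (1 : Fin 4) ∈ eA ∧ (2 : Fin 4) ∈ eA ∧ (3 : Fin 4) ∉ eA ∧
      (0 : Fin 4) ∈ eB ∧ (1 : Fin 4) ∈ eB ∧ (2 : Fin 4) ∉ eB ∧ (3 : Fin 4) ∈ eB := by decide
  obtain ⟨m1, m2, m3, m4, m5, m6, m7, m8⟩ := m
  refine ⟨⟨?_, ?_, ?_, ?_⟩, ⟨?_, ?_, ?_, ?_⟩, ⟨?_, ?_, ?_, ?_⟩, ⟨?_, ?_, ?_, ?_⟩⟩ <;>
    rw [arcs_eq R he] <;> simp [m1, m2, m3, m4, m5, m6, m7, m8, h2, h3]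

theorem cnt_sum {N : ℕ} (R : Stars 4 N) (e : Finset (Fin 4)) :
    cnt R 0 e + cnt R 1 e + cnt R 2 e + cnt R 3 e =
      Multiset.count e (Multiset.map (fun i => (R i).1) (univ : Finset (Fin N)).val) := by
  classical
  rw [Multiset.count_map]
  have h1 : Multiset.card (Multiset.filter (fun i => e = (R i).1) (univ : Finset (Fin N)).val) =
      (univ.filter fun i => e = (R i).1).card := rfl
  rw [h1, Finset.card_eq_sum_card_fiberwise (f := fun i => (R i).2) (t := univ)
    (fun _ _ => Finset.mem_coe.2 (mem_univ _)), Fin.sum_univ_four]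
  unfold cnt
  have h2 : ∀ u : Fin 4, (univ.filter fun i => (R i).2 = u ∧ (R i).1 = e) =
      (univ.filter fun i => e = (R i).1).filter fun i => (R i).2 = u := by
    intro u
    ext i
    simp only [Finset.mem_filter, Finset.mem_univ, true_and]
    exact ⟨fun h => ⟨h.2.symm, h.1⟩, fun h => ⟨h.2, h.1.symm⟩⟩
  rw [h2, h2, h2, h2]

theorem valid_iff (p q : ℕ) (R : Stars 4 (3 * (p + q))) :
    (((∀ i, (R i).2 ∈ (R i).1) ∧ Monotone (fun i => (R i).2) ∧
        Multiset.map (fun i => (R i).1) univ.val = hyp p q) ∧ Eulerian (arcs R)) ↔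
      Good R p q := by
  classical
  have hcA : Multiset.count eA (hyp p q) = 3 * p := by
    simp [hyp, Multiset.count_replicate, eA_ne_eB.symm]
  have hcB : Multiset.count eB (hyp p q) = 3 * q := by
    simp [hyp, Multiset.count_replicate, eA_ne_eB]
  constructor
  · rintro ⟨⟨h1, h2, h3⟩, h4⟩
    have he : ∀ i, (R i).1 = eA ∨ (R i).1 = eB := by
      intro i
      have : (R i).1 ∈ Multiset.map (fun i => (R i).1) (univ : Finset (Fin (3 * (p + q)))).val :=
        Multiset.mem_map_of_mem _ (Finset.mem_univ i)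
      rw [h3] at this
      unfold hyp at this
      rcases Multiset.mem_add.1 this with h | h
      · exact Or.inl (Multiset.eq_of_mem_replicate h)
      · exact Or.inr (Multiset.eq_of_mem_replicate h)
    have hA := cnt_sum R eA
    have hB := cnt_sum R eB
    rw [h3, hcA] at hA
    rw [h3, hcB] at hB
    have hB2 := cnt_two R h1
    have hA3 := cnt_three R h1
    obtain ⟨⟨t1, t2, t3, t4⟩, ⟨t5, t6, t7, t8⟩, ⟨t9, t10, t11, t12⟩, ⟨t13, t14, t15, t16⟩⟩ :=
      arcs_table R h1 he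
    have b0 := h4.1 0
    have b1 := h4.1 1
    have b2 := h4.1 2
    have b3 := h4.1 3
    unfold inDeg outDeg at b0 b1 b2 b3
    rw [Fin.sum_univ_four, Fin.sum_univ_four] at b0 b1 b2 b3
    rw [t1, t2, t3, t4, t5, t9, t13] at b0
    rw [t5, t6, t7, t8, t2, t10, t14] at b1
    rw [t9, t10, t11, t12, t3, t7, t15] at b2
    rw [t13, t14, t15, t16, t4, t8, t12] at b3
    refine ⟨h1, h2, he, ?_, ?_, ?_, ?_, ?_, ?_⟩ <;> omega
  · rintro ⟨h1, h2, he, g1, g2, g3, g4, g5, g6⟩
    have hB2 := cnt_two R h1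
    have hA3 := cnt_three R h1
    obtain ⟨⟨t1, t2, t3, t4⟩, ⟨t5, t6, t7, t8⟩, ⟨t9, t10, t11, t12⟩, ⟨t13, t14, t15, t16⟩⟩ :=
      arcs_table R h1 he
    refine ⟨⟨h1, h2, ?_⟩, ?_, ?_⟩
    · ext e
      by_cases hA : e = eA
      · subst hA
        rw [← cnt_sum, hcA]
        omega
      · by_cases hB : e = eB
        · subst hB
          rw [← cnt_sum, hcB]
          omega
        · rw [Multiset.count_eq_zero.2, Multiset.count_eq_zero.2]
          · unfold hyp
            intro h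
            rcases Multiset.mem_add.1 h with h | h
            · exact hA (Multiset.eq_of_mem_replicate h)
            · exact hB (Multiset.eq_of_mem_replicate h)
          · intro h
            obtain ⟨i, _, hi⟩ := Multiset.mem_map.1 h
            rcases he i with h | h
            · exact hA (by rw [← hi, h])
            · exact hB (by rw [← hi, h])
    · intro v
      unfold inDeg outDeg
      rw [Fin.sum_univ_four, Fin.sum_univ_four]
      fin_cases v
      · show arcs R 0 0 + arcs R 1 0 + arcs R 2 0 + arcs R 3 0 =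
          arcs R 0 0 + arcs R 0 1 + arcs R 0 2 + arcs R 0 3
        rw [t1, t2, t3, t4, t5, t9, t13]
        clear t1 t2 t3 t4 t5 t6 t7 t8 t9 t10 t11 t12 t13 t14 t15 t16
        omega
      · show arcs R 0 1 + arcs R 1 1 + arcs R 2 1 + arcs R 3 1 =
          arcs R 1 0 + arcs R 1 1 + arcs R 1 2 + arcs R 1 3
        rw [t5, t6, t7, t8, t2, t10, t14]
        clear t1 t2 t3 t4 t5 t6 t7 t8 t9 t10 t11 t12 t13 t14 t15 t16
        omega
      · show arcs R 0 2 + arcs R 1 2 + arcs R 2 2 + arcs R 3 2 =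
          arcs R 2 0 + arcs R 2 1 + arcs R 2 2 + arcs R 2 3
        rw [t9, t10, t11, t12, t3, t7, t15]
        clear t1 t2 t3 t4 t5 t6 t7 t8 t9 t10 t11 t12 t13 t14 t15 t16
        omega
      · show arcs R 0 3 + arcs R 1 3 + arcs R 2 3 + arcs R 3 3 =
          arcs R 3 0 + arcs R 3 1 + arcs R 3 2 + arcs R 3 3
        rw [t13, t14, t15, t16, t4, t8, t12]
        clear t1 t2 t3 t4 t5 t6 t7 t8 t9 t10 t11 t12 t13 t14 t15 t16
        omega
    · intro A hA
      -- every vertex of the digraph is adjacent to `0`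
      have key : ∀ v ∈ dverts (arcs R), v ≠ 0 → 0 < arcs R v 0 := by
        intro v hv hv0
        unfold dverts at hv
        rw [Finset.mem_filter] at hv
        have hv2 := hv.2
        unfold inDeg outDeg at hv2
        rw [Fin.sum_univ_four, Fin.sum_univ_four] at hv2
        fin_cases v
        · exact absurd rfl hv0
        · show 0 < arcs R 1 0
          change 0 < arcs R 0 1 + arcs R 1 1 + arcs R 2 1 + arcs R 3 1 +
            (arcs R 1 0 + arcs R 1 1 + arcs R 1 2 + arcs R 1 3) at hv2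
          rw [t5, t6, t7, t8, t2, t10, t14] at hv2
          rw [t5]
          clear t1 t2 t3 t4 t5 t6 t7 t8 t9 t10 t11 t12 t13 t14 t15 t16
          omega
        · show 0 < arcs R 2 0
          change 0 < arcs R 0 2 + arcs R 1 2 + arcs R 2 2 + arcs R 3 2 +
            (arcs R 2 0 + arcs R 2 1 + arcs R 2 2 + arcs R 2 3) at hv2
          rw [t9, t10, t11, t12, t3, t7, t15] at hv2
          rw [t9]
          clear t1 t2 t3 t4 t5 t6 t7 t8 t9 t10 t11 t12 t13 t14 t15 t16
          omega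
        · show 0 < arcs R 3 0
          change 0 < arcs R 0 3 + arcs R 1 3 + arcs R 2 3 + arcs R 3 3 +
            (arcs R 3 0 + arcs R 3 1 + arcs R 3 2 + arcs R 3 3) at hv2
          rw [t13, t14, t15, t16, t4, t8, t12] at hv2
          rw [t13]
          clear t1 t2 t3 t4 t5 t6 t7 t8 t9 t10 t11 t12 t13 t14 t15 t16
          omega
      by_cases h0 : (0 : Fin 4) ∈ A
      · left
        intro v hv
        by_contra hvA
        have hv0 : v ≠ 0 := fun h => hvA (h ▸ h0)
        have := (hA 0 h0 v hvA).2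
        have := key v hv hv0
        omega
      · right
        rw [Finset.disjoint_left]
        intro v hv hvA
        have hv0 : v ≠ 0 := fun h => h0 (h ▸ hvA)
        have := (hA v hvA 0 h0).1
        have := key v hv hv0
        omega

/-- The contribution of a rooting. -/
theorem contrib {p q N : ℕ} (hs : 1 ≤ p + q) (R : Stars 4 N) (hR : Good R p q) :
    (tau (arcs R) : ℚ) / ∏ v ∈ dverts (arcs R), (inDeg (arcs R) v : ℚ) =
      3 / (8 * ((p + q : ℕ) : ℚ)) := by
  classical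
  obtain ⟨h1, h2, he, g1, g2, g3, g4, g5, g6⟩ := hR
  obtain ⟨⟨t1, t2, t3, t4⟩, ⟨t5, t6, t7, t8⟩, ⟨t9, t10, t11, t12⟩, ⟨t13, t14, t15, t16⟩⟩ :=
      arcs_table R h1 he
  have i0 : inDeg (arcs R) 0 = 2 * (p + q) := by
    unfold inDeg; rw [Fin.sum_univ_four, t1, t5, t9, t13]
    clear t1 t2 t3 t4 t5 t6 t7 t8 t9 t10 t11 t12 t13 t14 t15 t16
    omega
  have i1 : inDeg (arcs R) 1 = 2 * (p + q) := by
    unfold inDeg; rw [Fin.sum_univ_four, t2, t6, t10, t14]
    clear t1 t2 t3 t4 t5 t6 t7 t8 t9 t10 t11 t12 t13 t14 t15 t16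
    omega
  have i2 : inDeg (arcs R) 2 = 2 * p := by
    unfold inDeg; rw [Fin.sum_univ_four, t3, t7, t11, t15]
    clear t1 t2 t3 t4 t5 t6 t7 t8 t9 t10 t11 t12 t13 t14 t15 t16
    omega
  have i3 : inDeg (arcs R) 3 = 2 * q := by
    unfold inDeg; rw [Fin.sum_univ_four, t4, t8, t12, t16]
    clear t1 t2 t3 t4 t5 t6 t7 t8 t9 t10 t11 t12 t13 t14 t15 t16
    omega
  have o2 : outDeg (arcs R) 2 = 2 * p := by
    unfold outDeg; rw [Fin.sum_univ_four, t9, t10, t11, t12]
    clear t1 t2 t3 t4 t5 t6 t7 t8 t9 t10 t11 t12 t13 t14 t15 t16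
    omega
  have o3 : outDeg (arcs R) 3 = 2 * q := by
    unfold outDeg; rw [Fin.sum_univ_four, t13, t14, t15, t16]
    clear t1 t2 t3 t4 t5 t6 t7 t8 t9 t10 t11 t12 t13 t14 t15 t16
    omega
  have m0 : (0 : Fin 4) ∈ dverts (arcs R) := by
    unfold dverts; rw [Finset.mem_filter, i0]
    exact ⟨mem_univ _, Nat.lt_of_lt_of_le (by positivity) (Nat.le_add_right _ _)⟩
  have m1 : (1 : Fin 4) ∈ dverts (arcs R) := by
    unfold dverts; rw [Finset.mem_filter, i1]
    exact ⟨mem_univ _, Nat.lt_of_lt_of_le (by positivity) (Nat.le_add_right _ _)⟩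
  have m2 : (2 : Fin 4) ∈ dverts (arcs R) ↔ 0 < p := by
    unfold dverts; rw [Finset.mem_filter, i2, o2]
    clear t1 t2 t3 t4 t5 t6 t7 t8 t9 t10 t11 t12 t13 t14 t15 t16 i0 i1 i2 i3 o2 o3
    exact ⟨fun h => by omega, fun h => ⟨mem_univ _, by omega⟩⟩
  have m3 : (3 : Fin 4) ∈ dverts (arcs R) ↔ 0 < q := by
    unfold dverts; rw [Finset.mem_filter, i3, o3]
    clear t1 t2 t3 t4 t5 t6 t7 t8 t9 t10 t11 t12 t13 t14 t15 t16 i0 i1 i2 i3 o2 o3
    exact ⟨fun h => by omega, fun h => ⟨mem_univ _, by omega⟩⟩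
  have htau : tau (arcs R) = arbo (arcs R) 0 := by
    unfold tau
    have : (dverts (arcs R)).filter (fun r => ∀ v ∈ dverts (arcs R), r ≤ v) = {0} := by
      ext r
      rw [Finset.mem_filter, Finset.mem_singleton]
      constructor
      · rintro ⟨_, h⟩
        exact le_antisymm (h 0 m0) (Fin.zero_le _)
      · rintro rfl
        exact ⟨m0, fun v _ => Fin.zero_le _⟩
    rw [this, Finset.sum_singleton]
  rw [htau]
  have hsq : ((p + q : ℕ) : ℚ) ≠ 0 := by
    have : 0 < p + q := hs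
    positivity
  rw [g2] at t5
  rw [g3] at t9 t10
  rw [g4] at t13 t14
  have hpos : 0 < p + q := hs
  rcases Nat.eq_zero_or_pos p with hp | hp
  · -- `p = 0`
    subst hp
    have hq : 0 < q := by simpa using hpos
    have e1 : cnt R 1 eB = q := by
      clear t1 t2 t3 t4 t5 t6 t7 t8 t9 t10 t11 t12 t13 t14 t15 t16 i0 i1 i2 i3 o2 o3
      omega
    rw [e1] at t8
    have e2 : cnt R 1 eA = 0 := by
      clear t1 t2 t3 t4 t5 t6 t7 t8 t9 t10 t11 t12 t13 t14 t15 t16 i0 i1 i2 i3 o2 o3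
      omega
    rw [e2] at t7
    rw [Nat.zero_add] at t5
    have hA : dverts (arcs R) = {0, 1, 3} := by
      ext v
      fin_cases v
      · simp [m0]
      · simp [m1]
      · simp [m2]
      · simp [m3, hq]
    rw [arbo_two' (arcs R) hA q t5 t6 t8 t13 t14 t16 t7 t15, hA,
      Finset.prod_insert (by decide), Finset.prod_insert (by decide), Finset.prod_singleton,
      i0, i1, i3]
    rw [Nat.zero_add] at hsq ⊢
    push_cast
    field_simp
    norm_num
  · rcases Nat.eq_zero_or_pos q with hq | hq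
    · subst hq
      have e1 : cnt R 1 eB = 0 := by
        clear t1 t2 t3 t4 t5 t6 t7 t8 t9 t10 t11 t12 t13 t14 t15 t16 i0 i1 i2 i3 o2 o3
        omega
      rw [e1] at t8
      have e2 : cnt R 1 eA = p := by
        clear t1 t2 t3 t4 t5 t6 t7 t8 t9 t10 t11 t12 t13 t14 t15 t16 i0 i1 i2 i3 o2 o3
        omega
      rw [e2] at t7
      rw [Nat.add_zero] at t5
      have hA : dverts (arcs R) = {0, 1, 2} := by
        ext v
        fin_cases v
        · simp [m0]
        · simp [m1]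
        · simp [m2, hp]
        · simp [m3]
      rw [arbo_two (arcs R) hA p t5 t6 t7 t9 t10 t11 t8 t12, hA,
        Finset.prod_insert (by decide), Finset.prod_insert (by decide), Finset.prod_singleton,
        i0, i1, i2]
      rw [Nat.add_zero] at hsq ⊢
      push_cast
      field_simp
      norm_num
    · have hA : dverts (arcs R) = univ := by
        ext v
        fin_cases v
        · simp [m0]
        · simp [m1]
        · simp [m2, hp]
        · simp [m3, hq]
      rw [arbo_full' (arcs R) hA (p + q) (cnt R 1 eA) (cnt R 1 eB) p q t5 t6 t7 t8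
        t9 t10 t11 t12 t13 t14 t15 t16 g2, hA, Fin.prod_univ_four,
        i0, i1, i2, i3]
      have hp' : (p : ℚ) ≠ 0 := by positivity
      have hq' : (q : ℚ) ≠ 0 := by positivity
      push_cast at hsq ⊢
      field_simp
      norm_num

end Pool.Agent.H109.Thr
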