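import Pool.Agent.H109.Thr.Coef

open Finset

namespace Pool.Agent.H109.Thr

theorem card_lt (N m : ℕ) (h : m ≤ N) : (univ.filter fun i : Fin N => (i : ℕ) < m).card = m := by
  rw [← Finset.card_map Fin.valEmbedding]
  have : (univ.filter fun i : Fin N => (i : ℕ) < m).map Fin.valEmbedding = range m := by
    ext a
    simp only [Finset.mem_map, Finset.mem_filter, Finset.mem_univ, true_and, Fin.valEmbedding_apply,
      Finset.mem_range]
    constructor
    · rintro ⟨i, hi, rfl⟩
      exact hi
    · intro ha
      exact ⟨⟨a, by omega⟩, ha, rfl⟩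
  rw [this, card_range]

theorem mono_lt {N : ℕ} (g : Fin N → Fin 4) (hg : Monotone g) (i : Fin N) (u : Fin 4) :
    g i < u ↔ (i : ℕ) < (univ.filter fun i' => g i' < u).card := by
  constructor
  · intro h
    have hsub : (univ.filter fun i' : Fin N => (i' : ℕ) < (i : ℕ) + 1) ⊆
        univ.filter fun i' => g i' < u := by
      intro a ha
      rw [Finset.mem_filter] at ha ⊢
      have : a ≤ i := Nat.lt_succ_iff.1 ha.2
      exact ⟨mem_univ _, lt_of_le_of_lt (hg this) h⟩
    have := Finset.card_le_card hsub
    rw [card_lt N _ i.2] at this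
    omega
  · intro h
    by_contra hn
    have hsub : (univ.filter fun i' => g i' < u) ⊆
        univ.filter fun i' : Fin N => (i' : ℕ) < (i : ℕ) := by
      intro a ha
      rw [Finset.mem_filter] at ha ⊢
      refine ⟨mem_univ _, ?_⟩
      by_contra hai
      have : i ≤ a := not_lt.1 hai
      exact hn (lt_of_le_of_lt (hg this) ha.2)
    have := Finset.card_le_card hsub
    rw [card_lt N _ i.2.le] at this
    omega

/-- The number of stars with a given centre. -/
def rt {N : ℕ} (R : Stars 4 N) (u : Fin 4) : ℕ := (univ.filter fun i => (R i).2 = u).card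

theorem rt_eq {N : ℕ} (R : Stars 4 N) (he : ∀ i, (R i).1 = eA ∨ (R i).1 = eB) (u : Fin 4) :
    cnt R u eA + cnt R u eB = rt R u := by
  unfold cnt rt
  rw [← Finset.card_union_of_disjoint]
  · congr 1
    ext i
    simp only [Finset.mem_union, Finset.mem_filter, Finset.mem_univ, true_and]
    constructor
    · rintro (h | h) <;> exact h.1
    · intro h
      rcases he i with h' | h'
      · exact Or.inl ⟨h, h'⟩
      · exact Or.inr ⟨h, h'⟩
  · rw [Finset.disjoint_left]
    intro i h1 h2
    rw [Finset.mem_filter] at h1 h2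
    exact eA_ne_eB (h1.2.2.symm.trans h2.2.2)

theorem lt_one' {N : ℕ} (R : Stars 4 N) :
    (univ.filter fun i => (R i).2 < 1).card = rt R 0 := by
  unfold rt
  congr 1
  ext i
  simp only [Finset.mem_filter, Finset.mem_univ, true_and]
  generalize (R i).2 = x
  revert x
  decide

theorem lt_two' {N : ℕ} (R : Stars 4 N) :
    (univ.filter fun i => (R i).2 < 2).card = rt R 0 + rt R 1 := by
  unfold rt
  rw [← Finset.card_union_of_disjoint]
  · congr 1
    ext i
    simp only [Finset.mem_union, Finset.mem_filter, Finset.mem_univ, true_and]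
    generalize (R i).2 = x
    revert x
    decide
  · rw [Finset.disjoint_left]
    intro i h1 h2
    rw [Finset.mem_filter] at h1 h2
    exact absurd (h1.2.symm.trans h2.2) (by decide)

theorem lt_three' {N : ℕ} (R : Stars 4 N) :
    (univ.filter fun i => (R i).2 < 3).card = rt R 0 + rt R 1 + rt R 2 := by
  rw [← lt_two']
  unfold rt
  rw [← Finset.card_union_of_disjoint]
  · congr 1
    ext i
    simp only [Finset.mem_union, Finset.mem_filter, Finset.mem_univ, true_and]
    generalize (R i).2 = x
    revert x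
    decide
  · rw [Finset.disjoint_left]
    intro i h1 h2
    rw [Finset.mem_filter] at h1 h2
    rw [h2.2] at h1
    exact absurd h1.2 (by decide)

theorem rt_total {N : ℕ} (R : Stars 4 N) : rt R 0 + rt R 1 + rt R 2 + rt R 3 = N := by
  have := Finset.card_eq_sum_card_fiberwise (s := (univ : Finset (Fin N)))
    (f := fun i => (R i).2) (t := univ) (fun _ _ => Finset.mem_coe.2 (mem_univ _))
  rw [Fin.sum_univ_four, Finset.card_univ, Fintype.card_fin] at this
  exact this.symm

theorem cntA {N : ℕ} (R : Stars 4 N) (e : Finset (Fin 4)) :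
    cnt R 0 e + cnt R 1 e = (univ.filter fun i => (R i).2 < 2 ∧ (R i).1 = e).card := by
  unfold cnt
  rw [← Finset.card_union_of_disjoint]
  · congr 1
    ext i
    simp only [Finset.mem_union, Finset.mem_filter, Finset.mem_univ, true_and]
    rw [← or_and_right]
    refine and_congr_left fun _ => ?_
    generalize (R i).2 = x
    revert x
    decide
  · rw [Finset.disjoint_left]
    intro i h1 h2
    rw [Finset.mem_filter] at h1 h2
    exact absurd (h1.2.1.symm.trans h2.2.1) (by decide)

/-- The rooting with a given set of positions of the edge `eA`. -/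
def mk (s p : ℕ) (T : Finset (Fin (2 * s))) : Stars 4 (3 * s) := fun i =>
  if h : (i : ℕ) < 2 * s then (if ⟨i, h⟩ ∈ T then eA else eB, if (i : ℕ) < s then 0 else 1)
  else if (i : ℕ) < 2 * s + p then (eA, 2) else (eB, 3)

/-- The positions of the edge `eA` among the first stars. -/
def pos {s : ℕ} (R : Stars 4 (3 * s)) : Finset (Fin (2 * s)) :=
  univ.filter fun j => (R (Fin.castLE (by omega) j)).1 = eA

theorem pos_mk (s p : ℕ) (T : Finset (Fin (2 * s))) : pos (mk s p T) = T := by
  ext j
  unfold pos mk
  simp only [Finset.mem_filter, Finset.mem_univ, true_and, Fin.val_castLE, j.2, dite_true]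
  by_cases h : j ∈ T
  · simp [h]
  · simp [h, eA_ne_eB.symm]

theorem pos_card {s : ℕ} (R : Stars 4 (3 * s)) :
    (pos R).card = (univ.filter fun i : Fin (3 * s) => (i : ℕ) < 2 * s ∧ (R i).1 = eA).card := by
  unfold pos
  refine Finset.card_bij (fun j _ => Fin.castLE (by omega) j) ?_ ?_ ?_
  · intro j hj
    rw [Finset.mem_filter] at hj ⊢
    exact ⟨mem_univ _, j.2, hj.2⟩
  · intro a _ b _ h
    exact Fin.castLE_injective _ h
  · intro i hi
    rw [Finset.mem_filter] at hi
    refine ⟨⟨i, hi.2.1⟩, ?_, rfl⟩
    rw [Finset.mem_filter]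
    exact ⟨mem_univ _, hi.2.2⟩

theorem good_imp {p q : ℕ} (R : Stars 4 (3 * (p + q))) (h : Good R p q) :
    (pos R).card = 2 * p ∧ R = mk (p + q) p (pos R) := by
  obtain ⟨h1, h2, he, g1, g2, g3, g4, g5, g6⟩ := h
  have r0 := rt_eq R he 0
  have r1 := rt_eq R he 1
  have r2 := rt_eq R he 2
  have hB2 := cnt_two R h1
  rw [g1] at r0
  rw [g2] at r1
  rw [g3, hB2, add_zero] at r2
  have l1 := lt_one' R
  have l2 := lt_two' R
  have l3 := lt_three' R
  rw [← r0] at l1
  rw [← r0, ← r1] at l2
  rw [← r0, ← r1, ← r2] at l3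
  have k1 : ∀ i, (R i).2 < 1 ↔ (i : ℕ) < p + q := fun i => by
    rw [mono_lt _ h2 i 1, l1]
  have k2 : ∀ i, (R i).2 < 2 ↔ (i : ℕ) < 2 * (p + q) := fun i => by
    rw [mono_lt _ h2 i 2, l2, two_mul]
  have k3 : ∀ i, (R i).2 < 3 ↔ (i : ℕ) < 2 * (p + q) + p := fun i => by
    rw [mono_lt _ h2 i 3, l3, two_mul]
  constructor
  · rw [pos_card, ← g5, cntA]
    congr 1
    refine Finset.filter_congr fun i _ => ?_
    rw [k2 i]
  · funext i
    unfold mk
    have q1 := k1 i
    have q2 := k2 i
    have q3 := k3 i
    have hin := h1 i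
    by_cases c2 : (i : ℕ) < 2 * (p + q)
    · rw [dif_pos c2]
      have e1 : (R i).1 = if (⟨i, c2⟩ : Fin (2 * (p + q))) ∈ pos R then eA else eB := by
        have hmem : (⟨i, c2⟩ : Fin (2 * (p + q))) ∈ pos R ↔ (R i).1 = eA := by
          unfold pos
          rw [Finset.mem_filter]
          exact ⟨fun h => h.2, fun h => ⟨mem_univ _, h⟩⟩
        rcases he i with h | h
        · rw [if_pos (hmem.2 h), h]
        · rw [if_neg (fun h' => eA_ne_eB ((hmem.1 h').symm.trans h)), h]
      have e2 : (R i).2 = if (i : ℕ) < p + q then 0 else 1 := by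
        by_cases c1 : (i : ℕ) < p + q
        · rw [if_pos c1]
          have := q1.2 c1
          revert this
          generalize (R i).2 = x
          revert x
          decide
        · rw [if_neg c1]
          have h3 := q2.2 c2
          have h4 : ¬ (R i).2 < 1 := fun h => c1 (q1.1 h)
          revert h3 h4
          generalize (R i).2 = x
          revert x
          decide
      exact Prod.ext e1 e2
    · rw [dif_neg c2]
      by_cases c3 : (i : ℕ) < 2 * (p + q) + p
      · rw [if_pos c3]
        have e2 : (R i).2 = 2 := by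
          have h3 := q3.2 c3
          have h4 : ¬ (R i).2 < 2 := fun h => c2 (q2.1 h)
          revert h3 h4
          generalize (R i).2 = x
          revert x
          decide
        have e1 : (R i).1 = eA := by
          rcases he i with h | h
          · exact h
          · rw [e2, h] at hin
            exact absurd hin (by decide)
        exact Prod.ext e1 e2
      · rw [if_neg c3]
        have e2 : (R i).2 = 3 := by
          have h4 : ¬ (R i).2 < 3 := fun h => c3 (q3.1 h)
          revert h4
          generalize (R i).2 = x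
          revert x
          decide
        have e1 : (R i).1 = eB := by
          rcases he i with h | h
          · rw [e2, h] at hin
            exact absurd hin (by decide)
          · exact h
        exact Prod.ext e1 e2

theorem mk_good {p q : ℕ} (T : Finset (Fin (2 * (p + q)))) (hT : T.card = 2 * p) :
    Good (mk (p + q) p T) p q := by
  set R := mk (p + q) p T with hR
  have hval : ∀ i : Fin (3 * (p + q)), R i =
      if h : (i : ℕ) < 2 * (p + q) then (if ⟨i, h⟩ ∈ T then eA else eB,
        if (i : ℕ) < p + q then 0 else 1)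
      else if (i : ℕ) < 2 * (p + q) + p then (eA, 2) else (eB, 3) := fun i => rfl
  have m : (0 : Fin 4) ∈ eA ∧ (1 : Fin 4) ∈ eA ∧ (2 : Fin 4) ∈ eA ∧
      (0 : Fin 4) ∈ eB ∧ (1 : Fin 4) ∈ eB ∧ (3 : Fin 4) ∈ eB := by decide
  obtain ⟨m1, m2, m3, m5, m6, m8⟩ := m
  have h1 : ∀ i, (R i).2 ∈ (R i).1 := by
    intro i
    rw [hval]
    split_ifs <;> assumption
  have he : ∀ i, (R i).1 = eA ∨ (R i).1 = eB := by
    intro i
    rw [hval]
    split_ifs <;> simp
  have k1 : ∀ i, (R i).2 < 1 ↔ (i : ℕ) < p + q := by
    intro i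
    rw [hval]
    split_ifs with c1 c2 c3 c4 <;> simp <;> omega
  have k2 : ∀ i, (R i).2 < 2 ↔ (i : ℕ) < 2 * (p + q) := by
    intro i
    rw [hval]
    split_ifs with c1 c2 c3 c4 <;> simp <;> omega
  have k3 : ∀ i, (R i).2 < 3 ↔ (i : ℕ) < 2 * (p + q) + p := by
    intro i
    rw [hval]
    split_ifs with c1 c2 c3 c4 <;> simp <;> omega
  have hmono : Monotone fun i => (R i).2 := by
    intro i j hij
    have hij' : (i : ℕ) ≤ j := hij
    have a1 := k1 i
    have a2 := k2 i
    have a3 := k3 i
    have b1 := k1 j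
    have b2 := k2 j
    have b3 := k3 j
    show (R i).2 ≤ (R j).2
    have c1 : (R j).2 < 1 → (R i).2 < 1 := fun h => a1.2 (lt_of_le_of_lt hij' (b1.1 h))
    have c2 : (R j).2 < 2 → (R i).2 < 2 := fun h => a2.2 (lt_of_le_of_lt hij' (b2.1 h))
    have c3 : (R j).2 < 3 → (R i).2 < 3 := fun h => a3.2 (lt_of_le_of_lt hij' (b3.1 h))
    revert c1 c2 c3
    generalize (R i).2 = x
    generalize (R j).2 = y
    revert x y
    decide
  have l1 := lt_one' R
  have l2 := lt_two' R
  have l3 := lt_three' R
  have l4 := rt_total R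
  simp only [k1] at l1
  simp only [k2] at l2
  simp only [k3] at l3
  rw [card_lt _ _ (by omega)] at l1 l2 l3
  have r0 := rt_eq R he 0
  have r1 := rt_eq R he 1
  have r2 := rt_eq R he 2
  have r3 := rt_eq R he 3
  have hB2 := cnt_two R h1
  have hA3 := cnt_three R h1
  have hc : cnt R 0 eA + cnt R 1 eA = 2 * p := by
    rw [cntA, ← hT]
    have := pos_card R
    rw [hR, pos_mk, ← hR] at this
    rw [this]
    congr 1
    refine Finset.filter_congr fun i _ => ?_
    rw [k2 i]
  refine ⟨h1, hmono, he, ?_, ?_, ?_, ?_, hc, ?_⟩ <;> omega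

/-- The number of good rootings. -/
theorem good_card (p q : ℕ) [DecidablePred fun R : Stars 4 (3 * (p + q)) => Good R p q] :
    (univ.filter fun R : Stars 4 (3 * (p + q)) => Good R p q).card =
      (2 * (p + q)).choose (2 * p) := by
  have h1 : (Finset.powersetCard (2 * p) (univ : Finset (Fin (2 * (p + q))))).card =
      (2 * (p + q)).choose (2 * p) := by
    rw [Finset.card_powersetCard, Finset.card_univ, Fintype.card_fin]
  rw [← h1]
  refine Finset.card_bij (fun R _ => pos R) ?_ ?_ ?_
  · intro R hR
    rw [Finset.mem_filter] at hR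
    rw [Finset.mem_powersetCard]
    exact ⟨Finset.subset_univ _, (good_imp R hR.2).1⟩
  · intro R hR R' hR' h
    rw [Finset.mem_filter] at hR hR'
    rw [(good_imp R hR.2).2, (good_imp R' hR'.2).2, h]
  · intro T hT
    rw [Finset.mem_powersetCard] at hT
    exact ⟨mk (p + q) p T, by
      rw [Finset.mem_filter]; exact ⟨mem_univ _, mk_good T hT.2⟩, pos_mk _ _ _⟩

/-- The coefficient of the Veblen hypergraph with `3 p` copies of `eA` and `3 q` copies of
`eB`. -/
theorem coef_hyp (p q : ℕ) (hs : 1 ≤ p + q) :
    coef (hyp p q) = 3 / (8 * ((p + q : ℕ) : ℚ)) * ((2 * (p + q)).choose (2 * p) : ℚ) := by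
  classical
  rw [coef_eq (hyp p q) (3 * (p + q)) (card_hyp p q)]
  have h1 : (univ.filter fun R : Stars 4 (3 * (p + q)) =>
      ((∀ i, (R i).2 ∈ (R i).1) ∧ Monotone (fun i => (R i).2) ∧
        Multiset.map (fun i => (R i).1) univ.val = hyp p q) ∧ Eulerian (arcs R)) =
      univ.filter fun R : Stars 4 (3 * (p + q)) => Good R p q := by
    ext R
    rw [Finset.mem_filter, Finset.mem_filter, valid_iff]
  rw [h1, Finset.sum_congr rfl (fun R hR => contrib hs R (Finset.mem_filter.1 hR).2),
    Finset.sum_const, good_card, nsmul_eq_mul]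
  ring

end Pool.Agent.H109.Thr
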