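import Mathlib

/-!
Codegree coefficients and coefficient thresholds of uniform hypergraphs: definitions.
-/

open Finset

namespace Pool.Agent.H109.Thr

variable {n : ℕ}

/-- A multi-hypergraph without isolated vertices on (a part of) `Fin n`: the multiset of
its edges. -/
abbrev MHyp (n : ℕ) := Multiset (Finset (Fin n))

/-- The vertices of a multi-hypergraph: the union of its edges. -/
def verts (G : MHyp n) : Finset (Fin n) := univ.filter fun v => ∃ e ∈ G, v ∈ e

/-- Veblen hypergraph: `k`-uniform, and every vertex degree, counted with multiplicity, is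
divisible by `k`. -/
def Veblen (k : ℕ) (G : MHyp n) : Prop :=
  (∀ e ∈ G, e.card = k) ∧ ∀ v, k ∣ (G.filter fun e => v ∈ e).card

/-- Connected: non-empty, and not the union of two non-empty parts on disjoint sets of
vertices. -/
def Conn (G : MHyp n) : Prop :=
  G ≠ 0 ∧ ∀ A : Finset (Fin n), (∀ e ∈ G, e ⊆ A ∨ Disjoint e A) →
    (∀ e ∈ G, e ⊆ A) ∨ ∀ e ∈ G, Disjoint e A

/-- The image of a multi-hypergraph under a permutation of the vertex set. -/
def relabel (σ : Equiv.Perm (Fin n)) (G : MHyp n) : MHyp n :=
  G.map (Finset.map σ.toEmbedding)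

/-- Isomorphism of multi-hypergraphs on parts of the same vertex set. -/
def Iso (G G' : MHyp n) : Prop := ∃ σ, relabel σ G = G'

/-- The number of automorphisms of a multi-hypergraph (bijections of its vertices
preserving the multiset of edges). -/
noncomputable def autCard (G : MHyp n) : ℕ := by
  classical
  exact (univ.filter fun σ : Equiv.Perm (Fin n) =>
    (∀ v, v ∉ verts G → σ v = v) ∧ relabel σ G = G).card

/-- The flattening: duplicate edges are removed. -/
def flat (G : MHyp n) : MHyp n := G.dedup

/-- The number of subhypergraphs of the simple hypergraph `ℋ` isomorphic to `G`. -/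
noncomputable def subCard (ℋ : Finset (Finset (Fin n))) (G : MHyp n) : ℕ := by
  classical
  exact (ℋ.powerset.filter fun S => Iso S.val G).card

/-! ### Rootings, Eulerian digraphs and the associated coefficient -/

/-- A sequence of `m` stars: the `i`-th is the star of the edge `(R i).1` with centre
`(R i).2`. -/
abbrev Stars (n m : ℕ) := Fin m → Finset (Fin n) × Fin n

/-- `R` is a rooting of `G`: the edges form the multiset `G`, each centre lies in its edge
and the centres do not decrease. -/
def IsRooting (G : MHyp n) (R : Stars n (Multiset.card G)) : Prop :=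
  (∀ i, (R i).2 ∈ (R i).1) ∧ Monotone (fun i => (R i).2) ∧
    Multiset.map (fun i => (R i).1) univ.val = G

/-- The digraph of a sequence of stars, as the function giving the multiplicity of the arc
from `u` to `v`. -/
def arcs {m : ℕ} (R : Stars n m) (u v : Fin n) : ℕ :=
  (univ.filter fun i => (R i).2 = u ∧ v ∈ (R i).1 ∧ v ≠ u).card

/-- In-degree. -/
def inDeg (D : Fin n → Fin n → ℕ) (v : Fin n) : ℕ := ∑ u, D u v

/-- Out-degree. -/
def outDeg (D : Fin n → Fin n → ℕ) (v : Fin n) : ℕ := ∑ u, D v u

/-- The vertices of a digraph (those on at least one arc). -/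
def dverts (D : Fin n → Fin n → ℕ) : Finset (Fin n) :=
  univ.filter fun v => 0 < inDeg D v + outDeg D v

/-- Eulerian: in-degree equals out-degree everywhere, and the digraph is connected. -/
def Eulerian (D : Fin n → Fin n → ℕ) : Prop :=
  (∀ v, inDeg D v = outDeg D v) ∧
    ∀ A : Finset (Fin n), (∀ u ∈ A, ∀ v ∉ A, D u v = 0 ∧ D v u = 0) →
      dverts D ⊆ A ∨ Disjoint (dverts D) A

/-- The number of arborescences of the multi-digraph `D` with root `r`: every vertex other
than the root chooses an arc to its parent, and following the parents leads to the root. -/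
noncomputable def arbo (D : Fin n → Fin n → ℕ) (r : Fin n) : ℕ := by
  classical
  exact ∑ p ∈ univ.filter (fun p : Fin n → Fin n =>
      (∀ v, v ∉ (dverts D).erase r → p v = v) ∧ ∀ v ∈ dverts D, ∃ j : ℕ, p^[j] v = r),
    ∏ v ∈ (dverts D).erase r, D v (p v)

/-- The number of arborescences whose root is the least vertex of `D` (for an Eulerian
digraph the number does not depend on the root). -/
noncomputable def tau (D : Fin n → Fin n → ℕ) : ℕ := by
  classical
  exact ∑ r ∈ (dverts D).filter (fun r => ∀ v ∈ dverts D, r ≤ v), arbo D r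

/-- The coefficient `C_G` of a connected Veblen hypergraph `G`. -/
noncomputable def coef (G : MHyp n) : ℚ := by
  classical
  exact ∑ R ∈ univ.filter (fun R : Stars n (Multiset.card G) =>
      IsRooting G R ∧ Eulerian (arcs R)),
    (tau (arcs R) : ℚ) / ∏ v ∈ dverts (arcs R), (inDeg (arcs R) v : ℚ)

/-! ### Isomorphism classes of Veblen hypergraphs and the codegree coefficients -/

/-- The connected Veblen hypergraphs whose flattening is a subhypergraph of `ℋ`. -/
def Comp (k : ℕ) (ℋ : Finset (Finset (Fin n))) : Type :=
  {G : MHyp n // Veblen k G ∧ Conn G ∧ ∀ e ∈ G, e ∈ ℋ}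

theorem relabel_mul (σ τ : Equiv.Perm (Fin n)) (G : MHyp n) :
    relabel (σ * τ) G = relabel σ (relabel τ G) := by
  unfold relabel
  rw [Multiset.map_map]
  refine Multiset.map_congr rfl fun e _ => ?_
  simp only [Function.comp]
  rw [Finset.map_map]
  congr 1

theorem relabel_one (G : MHyp n) : relabel 1 G = G := by
  unfold relabel
  conv_rhs => rw [← Multiset.map_id G]
  exact Multiset.map_congr rfl fun e _ => Finset.map_refl

theorem iso_refl (G : MHyp n) : Iso G G := ⟨1, relabel_one G⟩

theorem iso_symm {G G' : MHyp n} (h : Iso G G') : Iso G' G := by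
  obtain ⟨σ, rfl⟩ := h
  exact ⟨σ⁻¹, by rw [← relabel_mul, inv_mul_cancel, relabel_one]⟩

theorem iso_trans {G G' G'' : MHyp n} (h : Iso G G') (h' : Iso G' G'') : Iso G G'' := by
  obtain ⟨σ, rfl⟩ := h
  obtain ⟨τ, rfl⟩ := h'
  exact ⟨τ * σ, relabel_mul _ _ _⟩

instance compSetoid (k : ℕ) (ℋ : Finset (Finset (Fin n))) : Setoid (Comp k ℋ) where
  r G G' := Iso G.1 G'.1
  iseqv := ⟨fun G => iso_refl G.1, fun h => iso_symm h, fun h h' => iso_trans h h'⟩

/-- The isomorphism classes of connected Veblen hypergraphs with flattening in `ℋ`. -/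
abbrev Cls (k : ℕ) (ℋ : Finset (Finset (Fin n))) : Type := Quotient (compSetoid k ℋ)

/-- A representative of an isomorphism class. -/
noncomputable def rep {k : ℕ} {ℋ : Finset (Finset (Fin n))} (c : Cls k ℋ) : MHyp n :=
  (Quotient.out c).1

/-- An isomorphism class of (possibly disconnected) Veblen hypergraphs all of whose
components have their flattening in `ℋ`: it has `H c` components in the class `c`. -/
abbrev Vcls (k : ℕ) (ℋ : Finset (Finset (Fin n))) : Type := Cls k ℋ →₀ ℕ

section

variable {k : ℕ} {ℋ : Finset (Finset (Fin n))}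

/-- The number of edges. -/
noncomputable def edgesOf (H : Vcls k ℋ) : ℕ := H.sum fun c m => m * Multiset.card (rep c)

/-- The number of components. -/
noncomputable def compsOf (H : Vcls k ℋ) : ℕ := H.sum fun _ m => m

/-- `C_H`, the product over the components. -/
noncomputable def coefOf (H : Vcls k ℋ) : ℚ := H.prod fun c m => coef (rep c) ^ m

/-- The number of automorphisms of `H`: those of the components, and the permutations of
isomorphic components. -/
noncomputable def autOf (H : Vcls k ℋ) : ℕ := H.prod fun c m => m.factorial * autCard (rep c) ^ m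

/-- The number `(#H ⊆ ℋ)`. -/
noncomputable def occOf (H : Vcls k ℋ) : ℚ :=
  1 / (autOf H : ℚ) * H.prod fun c m =>
    ((autCard (flat (rep c)) : ℚ) * (subCard ℋ (flat (rep c)) : ℚ)) ^ m

end

/-- The sum over the isomorphism classes of Veblen hypergraphs with `d` edges. -/
noncomputable def codegreeSum (k v : ℕ) (ℋ : Finset (Finset (Fin n))) (d : ℕ) : ℚ :=
  ∑ᶠ H ∈ {H : Vcls k ℋ | edgesOf H = d},
    (-((k : ℚ) - 1) ^ v) ^ compsOf H * coefOf H * occOf H

/-- `T` is the coefficient `v`-threshold of `ℋ`. -/
def IsThreshold (k v : ℕ) (ℋ : Finset (Finset (Fin n))) (T : ℕ) : Prop :=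
  IsLeast {T : ℕ | ∀ d : ℕ, T < d → codegreeSum k v ℋ d = 0} T

end Pool.Agent.H109.Thr
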