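import Pool.Agent.H109.Thr.Cls
import Pool.Agent.H109.Thr.Count

open Finset

namespace Pool.Agent.H109.Thr

/-- The sum runs over a finite set. -/
theorem finite_edges {n : ℕ} (k : ℕ) (ℋ : Finset (Finset (Fin n))) (d : ℕ) :
    {H : Vcls k ℋ | edgesOf H = d}.Finite :=
  finite_tot (size := csize) csize_pos csize_fin d

theorem eA_sup : ∀ A : Finset (Fin 4), eA ⊆ A ∨ Disjoint eA A → eB ⊆ A ∨ Disjoint eB A →
    (eA ⊆ A ∧ eB ⊆ A) ∨ (Disjoint eA A ∧ Disjoint eB A) := by
  decide

theorem filter_rep (v : Fin 4) (m : ℕ) (e : Finset (Fin 4)) :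
    (Multiset.filter (fun e => v ∈ e) (Multiset.replicate m e)).card =
      if v ∈ e then m else 0 := by
  split_ifs with h
  · rw [Multiset.filter_eq_self.2 (fun a ha => by rw [Multiset.eq_of_mem_replicate ha]; exact h),
      Multiset.card_replicate]
  · rw [Multiset.filter_eq_nil.2 (fun a ha => by rw [Multiset.eq_of_mem_replicate ha]; exact h)]
    rfl

theorem hyp_veblen (p q : ℕ) : Veblen 3 (hyp p q) := by
  constructor
  · intro e he
    unfold hyp at he
    rcases Multiset.mem_add.1 he with h | h
    · rw [Multiset.eq_of_mem_replicate h]; decide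
    · rw [Multiset.eq_of_mem_replicate h]; decide
  · intro v
    unfold hyp
    rw [Multiset.filter_add, Multiset.card_add, filter_rep, filter_rep]
    split_ifs
    · exact Dvd.intro _ (by ring : 3 * (p + q) = _)
    · exact Dvd.intro _ (by ring : 3 * p = _)
    · exact Dvd.intro _ (by ring : 3 * q = _)
    · exact dvd_zero _

theorem hyp_mem {p q : ℕ} {e : Finset (Fin 4)} (he : e ∈ hyp p q) : e = eA ∨ e = eB := by
  unfold hyp at he
  rcases Multiset.mem_add.1 he with h | h
  · exact Or.inl (Multiset.eq_of_mem_replicate h)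
  · exact Or.inr (Multiset.eq_of_mem_replicate h)

theorem hyp_conn {p q : ℕ} (hs : 1 ≤ p + q) : Conn (hyp p q) := by
  constructor
  · intro h
    have := card_hyp p q
    rw [h, Multiset.card_zero] at this
    omega
  · intro A hA
    by_cases hp : p = 0
    · have hall : ∀ e ∈ hyp p q, e = eB := by
        intro e he
        unfold hyp at he
        rw [hp] at he
        simp only [mul_zero, Multiset.replicate_zero, zero_add] at he
        exact Multiset.eq_of_mem_replicate he
      have hB : eB ∈ hyp p q := by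
        unfold hyp
        refine Multiset.mem_add.2 (Or.inr (Multiset.mem_replicate.2 ⟨by omega, rfl⟩))
      rcases hA eB hB with h | h
      · exact Or.inl fun e he => by rw [hall e he]; exact h
      · exact Or.inr fun e he => by rw [hall e he]; exact h
    · have hAm : eA ∈ hyp p q := by
        unfold hyp
        refine Multiset.mem_add.2 (Or.inl (Multiset.mem_replicate.2 ⟨by omega, rfl⟩))
      by_cases hq : q = 0
      · have hall : ∀ e ∈ hyp p q, e = eA := by
          intro e he
          unfold hyp at he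
          rw [hq] at he
          simp only [mul_zero, Multiset.replicate_zero, add_zero] at he
          exact Multiset.eq_of_mem_replicate he
        rcases hA eA hAm with h | h
        · exact Or.inl fun e he => by rw [hall e he]; exact h
        · exact Or.inr fun e he => by rw [hall e he]; exact h
      · have hB : eB ∈ hyp p q := by
          unfold hyp
          refine Multiset.mem_add.2 (Or.inr (Multiset.mem_replicate.2 ⟨by omega, rfl⟩))
        rcases eA_sup A (hA eA hAm) (hA eB hB) with h | h
        · left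
          intro e he
          rcases hyp_mem he with rfl | rfl
          · exact h.1
          · exact h.2
        · right
          intro e he
          rcases hyp_mem he with rfl | rfl
          · exact h.1
          · exact h.2

/-- The connected Veblen hypergraphs on the two edges. -/
theorem eq_hyp {G : MHyp 4} (hV : Veblen 3 G) (hC : Conn G) (hG : ∀ e ∈ G, e = eA ∨ e = eB) :
    ∃ p q, 1 ≤ p + q ∧ G = hyp p q := by
  classical
  have hrep : G = Multiset.replicate (Multiset.count eA G) eA +
      Multiset.replicate (Multiset.count eB G) eB := by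
    ext e
    rw [Multiset.count_add, Multiset.count_replicate, Multiset.count_replicate]
    by_cases hA : eA = e
    · subst hA
      simp [eA_ne_eB.symm]
    · by_cases hB : eB = e
      · subst hB
        simp [eA_ne_eB]
      · rw [if_neg hA, if_neg hB, Multiset.count_eq_zero.2]
        intro he
        rcases hG e he with h | h
        · exact hA h.symm
        · exact hB h.symm
  have h2 := hV.2 2
  have h3 := hV.2 3
  rw [hrep, Multiset.filter_add, Multiset.card_add, filter_rep, filter_rep,
    if_pos (by decide), if_neg (by decide), add_zero] at h2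
  rw [hrep, Multiset.filter_add, Multiset.card_add, filter_rep, filter_rep,
    if_neg (by decide), if_pos (by decide), zero_add] at h3
  obtain ⟨p, hp⟩ := h2
  obtain ⟨q, hq⟩ := h3
  have hG' : G = hyp p q := by
    rw [hrep, hp, hq]
    rfl
  refine ⟨p, q, ?_, hG'⟩
  by_contra h
  have hp0 : p = 0 := by omega
  have hq0 : q = 0 := by omega
  apply hC.1
  rw [hG', hp0, hq0]
  simp [hyp]

theorem hyp_inj {p q p' q' : ℕ} (h : hyp p q = hyp p' q') : p = p' ∧ q = q' := by
  classical
  have hA := congrArg (Multiset.count eA) h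
  have hB := congrArg (Multiset.count eB) h
  simp only [hyp, Multiset.count_add, Multiset.count_replicate, eA_ne_eB, eA_ne_eB.symm,
    if_true, if_false] at hA hB
  omega

theorem count_relabel (σ : Equiv.Perm (Fin 4)) (p q : ℕ) (e : Finset (Fin 4)) :
    Multiset.count e (relabel σ (hyp p q)) =
      (if e = eA.map σ.toEmbedding then 3 * p else 0) +
      (if e = eB.map σ.toEmbedding then 3 * q else 0) := by
  unfold relabel hyp
  rw [Multiset.map_add, Multiset.map_replicate, Multiset.map_replicate, Multiset.count_add,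
    Multiset.count_replicate, Multiset.count_replicate]
  congr 1 <;> exact if_congr eq_comm rfl rfl

theorem iso_hyp {p q p' q' : ℕ} (h : Iso (hyp p q) (hyp p' q')) :
    (p' = p ∧ q' = q) ∨ (p' = q ∧ q' = p) := by
  classical
  obtain ⟨σ, hσ⟩ := h
  have hne : eA.map σ.toEmbedding ≠ eB.map σ.toEmbedding := fun h =>
    eA_ne_eB (Finset.map_injective _ h)
  have hA := congrArg (Multiset.count eA) hσ
  have hB := congrArg (Multiset.count eB) hσ
  have hc := congrArg Multiset.card hσ
  rw [card_hyp] at hc
  have hc' : Multiset.card (relabel σ (hyp p q)) = 3 * (p + q) := by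
    unfold relabel
    rw [Multiset.card_map, card_hyp]
  rw [hc'] at hc
  rw [count_relabel] at hA hB
  have hA2 : Multiset.count eA (hyp p' q') = 3 * p' := by
    simp [hyp, Multiset.count_replicate, eA_ne_eB.symm]
  have hB2 : Multiset.count eB (hyp p' q') = 3 * q' := by
    simp [hyp, Multiset.count_replicate, eA_ne_eB]
  rw [hA2] at hA
  rw [hB2] at hB
  have hAB := eA_ne_eB
  by_cases x : eA = eA.map σ.toEmbedding <;> by_cases y : eA = eB.map σ.toEmbedding <;>
    by_cases z : eB = eA.map σ.toEmbedding <;> by_cases w : eB = eB.map σ.toEmbedding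
  all_goals first
    | exact absurd (x.symm.trans y) hne
    | exact absurd (z.symm.trans w) hne
    | exact absurd (x.trans z.symm) hAB
    | exact absurd (y.trans w.symm) hAB
    | (simp only [if_pos x, if_pos y, if_pos z, if_pos w] at hA hB; omega)
    | (simp only [if_neg x, if_neg y, if_neg z, if_neg w] at hA hB; omega)
    | skip
  all_goals
    first
    | rw [if_pos x] at hA
    | rw [if_neg x] at hA
  all_goals
    first
    | rw [if_pos y] at hA
    | rw [if_neg y] at hA
  all_goals
    first
    | rw [if_pos z] at hB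
    | rw [if_neg z] at hB
  all_goals
    first
    | rw [if_pos w] at hB
    | rw [if_neg w] at hB
  all_goals omega

theorem coef_iso {p q p' q' : ℕ} (hs : 1 ≤ p + q) (h : Iso (hyp p q) (hyp p' q')) :
    coef (hyp p q) = coef (hyp p' q') := by
  rcases iso_hyp h with ⟨h1, h2⟩ | ⟨h1, h2⟩
  · rw [h1, h2]
  · rw [h1, h2, coef_hyp p q hs, coef_hyp q p (by omega), add_comm q p]
    congr 2
    exact Nat.choose_symm_of_eq_add (by omega)

/-- The sum of the even binomial coefficients. -/
theorem sum_even (s : ℕ) (hs : 1 ≤ s) :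
    2 * ∑ p ∈ range (s + 1), (((2 * s).choose (2 * p) : ℕ) : ℚ) = 4 ^ s := by
  have h1 : ∑ i ∈ range (2 * s + 1), (((2 * s).choose i : ℕ) : ℚ) = 4 ^ s := by
    rw [← Nat.cast_sum, Nat.sum_range_choose, pow_mul]
    norm_num
  have h2 : ∑ i ∈ range (2 * s + 1), (-1 : ℚ) ^ i * (((2 * s).choose i : ℕ) : ℚ) = 0 := by
    have := Int.alternating_sum_range_choose_of_ne (n := 2 * s) (by omega)
    have h3 := congrArg (Int.cast : ℤ → ℚ) this
    push_cast at h3
    exact h3
  have h3 : ∑ i ∈ range (2 * s + 1), ((1 : ℚ) + (-1) ^ i) * (((2 * s).choose i : ℕ) : ℚ) =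
      4 ^ s := by
    calc _ = ∑ i ∈ range (2 * s + 1), (((2 * s).choose i : ℕ) : ℚ) +
        ∑ i ∈ range (2 * s + 1), (-1 : ℚ) ^ i * (((2 * s).choose i : ℕ) : ℚ) := by
          rw [← Finset.sum_add_distrib]
          exact Finset.sum_congr rfl fun i _ => by ring
      _ = _ := by rw [h1, h2, add_zero]
  rw [← h3]
  have himg : (range (s + 1)).image (fun p => 2 * p) ⊆ range (2 * s + 1) := by
    intro i hi
    obtain ⟨p, hp, rfl⟩ := Finset.mem_image.1 hi
    rw [Finset.mem_range] at hp ⊢
    omega
  rw [← Finset.sum_subset himg, Finset.sum_image (by intro a _ b _ h; simpa using h),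
    Finset.mul_sum]
  · refine Finset.sum_congr rfl fun p _ => ?_
    rw [pow_mul]
    norm_num
  · intro i hi hi'
    have hodd : Odd i := by
      rw [← Nat.not_even_iff_odd]
      rintro ⟨p, hp⟩
      refine hi' (Finset.mem_image.2 ⟨p, ?_, by omega⟩)
      rw [Finset.mem_range] at hi ⊢
      omega
    rw [hodd.neg_one_pow]
    ring

/-- The threshold from the values of the connected sums. -/
theorem threshold_of {ℋ : Finset (Finset (Fin 4))} (m : ℕ) (b : ℚ) (hb : b ≠ 0)
    (h3 : ∀ s, 1 ≤ s → ∑ᶠ c ∈ {c : Cls 3 ℋ | csize c = 3 * s}, xw 3 4 ℋ c =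
      - (m : ℚ) * b ^ s / s)
    (h0 : ∀ j, ¬ 3 ∣ j → ∑ᶠ c ∈ {c : Cls 3 ℋ | csize c = j}, xw 3 4 ℋ c = 0) :
    IsThreshold 3 4 ℋ (3 * m) := by
  obtain ⟨h1, h2⟩ := exp_special (size := csize) csize_pos csize_fin (xw 3 4 ℋ) m b hb h3 h0
  constructor
  · intro d hd
    rw [codegreeSum_eq]
    exact h1 d hd
  · intro T hT
    by_contra hlt
    push Not at hlt
    have := hT (3 * m) hlt
    rw [codegreeSum_eq] at this
    exact h2 this

/-- The two edges sharing two vertices. -/
def two : Finset (Finset (Fin 4)) := {eA, eB}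

/-- The single edge. -/
def one : Finset (Finset (Fin 4)) := {eA}

theorem three_dvd {ℋ : Finset (Finset (Fin 4))} (hℋ : ∀ e ∈ ℋ, e = eA ∨ e = eB)
    (G : Comp 3 ℋ) : 3 ∣ Multiset.card G.1 := by
  obtain ⟨p, q, _, hpq⟩ := eq_hyp G.2.1 G.2.2.1 (fun e he => hℋ e (G.2.2.2 e he))
  rw [hpq, card_hyp]
  exact Dvd.intro _ rfl

theorem h0_of {ℋ : Finset (Finset (Fin 4))} (hℋ : ∀ e ∈ ℋ, e = eA ∨ e = eB) (j : ℕ)
    (hj : ¬ 3 ∣ j) : ∑ᶠ c ∈ {c : Cls 3 ℋ | csize c = j}, xw 3 4 ℋ c = 0 := by
  have : {c : Cls 3 ℋ | csize c = j} = ∅ := by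
    rw [Set.eq_empty_iff_forall_notMem]
    intro c hc
    exact hj (hc ▸ three_dvd hℋ (Quotient.out c))
  rw [this, finsum_mem_empty]

theorem two_mem : ∀ e ∈ two, e = eA ∨ e = eB := by
  intro e he
  unfold two at he
  simpa using he

theorem one_mem : ∀ e ∈ one, e = eA ∨ e = eB := by
  intro e he
  unfold one at he
  rw [Finset.mem_singleton] at he
  exact Or.inl he

theorem threshold_two : IsThreshold 3 4 two (3 * 3) := by
  refine threshold_of 3 4 (by norm_num) ?_ (h0_of two_mem)
  intro s hs
  set g : ℕ → Comp 3 two := fun p => ⟨hyp p (s - p), hyp_veblen _ _, hyp_conn (by omega), by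
    intro e he
    unfold two
    rcases hyp_mem he with rfl | rfl <;> simp⟩ with hg
  rw [sum_xw 4 (3 * s) (range (s + 1)) g]
  · have h1 : ∑ p ∈ range (s + 1), coef (g p).1 =
        ∑ p ∈ range (s + 1), 3 / (8 * (s : ℚ)) * (((2 * s).choose (2 * p) : ℕ) : ℚ) := by
      refine Finset.sum_congr rfl fun p hp => ?_
      rw [Finset.mem_range] at hp
      show coef (hyp p (s - p)) = _
      rw [coef_hyp _ _ (by omega), Nat.add_sub_cancel' (by omega)]
    rw [h1, ← Finset.mul_sum]
    have h2 := sum_even s hs
    have h3 : ∑ p ∈ range (s + 1), (((2 * s).choose (2 * p) : ℕ) : ℚ) = 4 ^ s / 2 := by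
      linarith
    rw [h3]
    have : (s : ℚ) ≠ 0 := by positivity
    push_cast
    field_simp
    norm_num
  · intro p _ q _ h
    have := congrArg Subtype.val h
    exact (hyp_inj this).1
  · intro p hp
    rw [Finset.mem_range] at hp
    show Multiset.card (hyp p (s - p)) = 3 * s
    rw [card_hyp, Nat.add_sub_cancel' (by omega)]
  · intro G hG
    obtain ⟨p, q, hs', hpq⟩ := eq_hyp G.2.1 G.2.2.1 (fun e he => two_mem e (G.2.2.2 e he))
    rw [hpq, card_hyp] at hG
    refine ⟨p, ?_, ?_⟩
    · rw [Finset.mem_range]; omega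
    · apply Subtype.ext
      show hyp p (s - p) = G.1
      rw [hpq]
      congr 1
      omega
  · intro p _ q _ h
    exact coef_iso (by omega) h

theorem threshold_one : IsThreshold 3 4 one (3 * 6) := by
  refine threshold_of 6 1 (by norm_num) ?_ (h0_of one_mem)
  intro s hs
  set g : Unit → Comp 3 one := fun _ => ⟨hyp s 0, hyp_veblen _ _, hyp_conn (by omega), by
    intro e he
    unfold one
    unfold hyp at he
    simp only [mul_zero, Multiset.replicate_zero, add_zero] at he
    rw [Multiset.eq_of_mem_replicate he]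
    simp⟩ with hg
  rw [sum_xw 4 (3 * s) (univ : Finset Unit) g]
  · rw [Finset.univ_unique, Finset.sum_singleton]
    show _ * coef (hyp s 0) = _
    rw [coef_hyp _ _ (by omega), Nat.add_zero, Nat.choose_self]
    have : (s : ℚ) ≠ 0 := by positivity
    push_cast
    field_simp
    norm_num
  · intro p _ q _ _
    rfl
  · intro p _
    show Multiset.card (hyp s 0) = 3 * s
    rw [card_hyp, Nat.add_zero]
  · intro G hG
    obtain ⟨p, q, hs', hpq⟩ := eq_hyp G.2.1 G.2.2.1 (fun e he => one_mem e (G.2.2.2 e he))
    have hq : q = 0 := by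
      by_contra hq
      have hB : eB ∈ G.1 := by
        rw [hpq]
        unfold hyp
        exact Multiset.mem_add.2 (Or.inr (Multiset.mem_replicate.2 ⟨by omega, rfl⟩))
      have := G.2.2.2 eB hB
      unfold one at this
      rw [Finset.mem_singleton] at this
      exact eA_ne_eB this.symm
    subst hq
    rw [hpq, card_hyp] at hG
    refine ⟨(), mem_univ _, ?_⟩
    apply Subtype.ext
    show hyp s 0 = G.1
    rw [hpq]
    congr 1
    omega
  · intro p _ q _ _
    rfl

end Pool.Agent.H109.Thr
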