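import Pool.Agent.H109.Thr.Defs

open Finset

namespace Pool.Agent.H109.Thr

theorem iterate_fix {n : ℕ} (p : Fin n → Fin n) (r : Fin n) (hr : p r = r) (m : ℕ) :
    p^[m] r = r := by
  induction m with
  | zero => rfl
  | succ m ih => rw [Function.iterate_succ_apply, hr, ih]

theorem iterate_reach {n : ℕ} (p : Fin n → Fin n) (r v : Fin n) (hr : p r = r) :
    (∃ j : ℕ, p^[j] v = r) ↔ p^[n] v = r := by
  classical
  refine ⟨fun h => ?_, fun h => ⟨n, h⟩⟩
  set j := Nat.find h with hj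
  have hj1 : p^[j] v = r := Nat.find_spec h
  have hmin : ∀ i < j, p^[i] v ≠ r := fun i hi => Nat.find_min h hi
  have hjn : j ≤ n := by
    by_contra hlt
    push Not at hlt
    obtain ⟨a, b, hab, he⟩ := Fintype.exists_ne_map_eq_of_card_lt
      (fun i : Fin (n + 1) => p^[(i : ℕ)] v) (by simp)
    wlog hlt2 : a < b generalizing a b with H
    · exact H b a hab.symm he.symm (lt_of_le_of_ne (not_lt.1 hlt2) (Ne.symm hab))
    have hb : (b : ℕ) ≤ n := Nat.lt_succ_iff.1 b.2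
    have h1 : p^[j - (b : ℕ) + (a : ℕ)] v = r := by
      rw [Function.iterate_add_apply]
      have he' : p^[(a : ℕ)] v = p^[(b : ℕ)] v := he
      rw [he', ← Function.iterate_add_apply, Nat.sub_add_cancel (by omega)]
      exact hj1
    refine hmin (j - (b : ℕ) + (a : ℕ)) ?_ h1
    have : (a : ℕ) < b := hlt2
    omega
  have key : p^[(n - j) + j] v = r := by
    rw [Function.iterate_add_apply, hj1, iterate_fix p r hr]
  rwa [Nat.sub_add_cancel hjn] at key

/-- Summation over the functions `Fin 4 → Fin 4`. -/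
theorem sum_fun4 (f : (Fin 4 → Fin 4) → ℕ) :
    ∑ p : Fin 4 → Fin 4, f p = ∑ a, ∑ b, ∑ c, ∑ d, f ![a, b, c, d] := by
  rw [← Fintype.sum_prod_type', ← Fintype.sum_prod_type', ← Fintype.sum_prod_type']
  refine Fintype.sum_equiv
    ⟨fun p => (((p 0, p 1), p 2), p 3), fun q => ![q.1.1.1, q.1.1.2, q.1.2, q.2], ?_, ?_⟩ _ _ ?_
  · intro p
    ext i
    fin_cases i <;> rfl
  · rintro ⟨⟨⟨a, b⟩, c⟩, d⟩
    rfl
  · intro p
    congr 1
    ext i
    fin_cases i <;> rfl

/-- The arborescences with root `0` on a given set of vertices. -/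
theorem arbo_eq (D : Fin 4 → Fin 4 → ℕ) (A : Finset (Fin 4)) (hA : dverts D = A) :
    arbo D 0 = ∑ b, ∑ c, ∑ d, if ((∀ v, v ∉ A.erase 0 → (![0, b, c, d] : Fin 4 → Fin 4) v = v) ∧
      ∀ v ∈ A, (![0, b, c, d] : Fin 4 → Fin 4)^[4] v = 0) then
      ∏ v ∈ A.erase 0, D v ((![0, b, c, d] : Fin 4 → Fin 4) v) else 0 := by
  classical
  unfold arbo
  rw [Finset.sum_filter, sum_fun4, hA]
  rw [Fin.sum_univ_four]
  have h1 : ∀ a : Fin 4, a ≠ 0 → (∑ b, ∑ c, ∑ d, if ((∀ v, v ∉ A.erase 0 →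
      (![a, b, c, d] : Fin 4 → Fin 4) v = v) ∧
      ∀ v ∈ A, ∃ j : ℕ, (![a, b, c, d] : Fin 4 → Fin 4)^[j] v = 0) then
      ∏ v ∈ A.erase 0, D v ((![a, b, c, d] : Fin 4 → Fin 4) v) else 0) = 0 := by
    intro a ha
    refine Finset.sum_eq_zero fun b _ => Finset.sum_eq_zero fun c _ =>
      Finset.sum_eq_zero fun d _ => if_neg ?_
    intro h
    exact ha (h.1 0 (by simp))
  rw [h1 1 (by decide), h1 2 (by decide), h1 3 (by decide), add_zero, add_zero, add_zero]
  refine Finset.sum_congr rfl fun b _ => Finset.sum_congr rfl fun c _ =>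
    Finset.sum_congr rfl fun d _ => ?_
  refine if_congr (and_congr_right fun _ => ?_) rfl rfl
  exact forall_congr' fun v => forall_congr' fun _ => iterate_reach _ 0 v rfl

theorem arbo_full' (D : Fin 4 → Fin 4 → ℕ) (hA : dverts D = univ) (s i j p q : ℕ)
    (h10 : D 1 0 = s) (h11 : D 1 1 = 0) (h12 : D 1 2 = i) (h13 : D 1 3 = j)
    (h20 : D 2 0 = p) (h21 : D 2 1 = p) (h22 : D 2 2 = 0) (h23 : D 2 3 = 0)
    (h30 : D 3 0 = q) (h31 : D 3 1 = q) (h32 : D 3 2 = 0) (h33 : D 3 3 = 0)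
    (hs : i + j = s) : arbo D 0 = 6 * s * p * q := by
  rw [arbo_eq D univ hA]
  have he : (univ : Finset (Fin 4)).erase 0 = {1, 2, 3} := by decide
  have hprod : ∀ b c d : Fin 4, ∏ v ∈ ({1, 2, 3} : Finset (Fin 4)),
      D v ((![0, b, c, d] : Fin 4 → Fin 4) v) = D 1 b * D 2 c * D 3 d := by
    intro b c d
    rw [Finset.prod_insert (by decide), Finset.prod_insert (by decide), Finset.prod_singleton,
      mul_assoc]
    rfl
  simp only [he, hprod]
  simp only [Fin.sum_univ_four, h10, h11, h12, h13, h20, h21, h22, h23, h30, h31, h32, h33,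
    mul_zero, zero_mul, ite_self, add_zero]
  simp (decide := true) only [if_true, if_false]
  subst hs
  ring

theorem arbo_two (D : Fin 4 → Fin 4 → ℕ) (hA : dverts D = {0, 1, 2}) (s : ℕ)
    (h10 : D 1 0 = s) (h11 : D 1 1 = 0) (h12 : D 1 2 = s)
    (h20 : D 2 0 = s) (h21 : D 2 1 = s) (h22 : D 2 2 = 0)
    (h13 : D 1 3 = 0) (h23 : D 2 3 = 0) : arbo D 0 = 3 * s * s := by
  rw [arbo_eq D _ hA]
  have he : ({0, 1, 2} : Finset (Fin 4)).erase 0 = {1, 2} := by decide
  have hprod : ∀ b c d : Fin 4, ∏ v ∈ ({1, 2} : Finset (Fin 4)),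
      D v ((![0, b, c, d] : Fin 4 → Fin 4) v) = D 1 b * D 2 c := by
    intro b c d
    rw [Finset.prod_insert (by decide), Finset.prod_singleton]
    rfl
  simp only [he, hprod]
  simp only [Fin.sum_univ_four, h10, h11, h12, h13, h20, h21, h22, h23,
    mul_zero, zero_mul, ite_self, add_zero]
  simp (decide := true) only [if_true, if_false]
  ring

theorem arbo_two' (D : Fin 4 → Fin 4 → ℕ) (hA : dverts D = {0, 1, 3}) (s : ℕ)
    (h10 : D 1 0 = s) (h11 : D 1 1 = 0) (h13 : D 1 3 = s)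
    (h30 : D 3 0 = s) (h31 : D 3 1 = s) (h33 : D 3 3 = 0)
    (h12 : D 1 2 = 0) (h32 : D 3 2 = 0) : arbo D 0 = 3 * s * s := by
  rw [arbo_eq D _ hA]
  have he : ({0, 1, 3} : Finset (Fin 4)).erase 0 = {1, 3} := by decide
  have hprod : ∀ b c d : Fin 4, ∏ v ∈ ({1, 3} : Finset (Fin 4)),
      D v ((![0, b, c, d] : Fin 4 → Fin 4) v) = D 1 b * D 3 d := by
    intro b c d
    rw [Finset.prod_insert (by decide), Finset.prod_singleton]
    rfl
  simp only [he, hprod]
  simp only [Fin.sum_univ_four, h10, h11, h12, h13, h30, h31, h32, h33,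
    mul_zero, zero_mul, ite_self, add_zero]
  simp (decide := true) only [if_true, if_false]
  ring

end Pool.Agent.H109.Thr
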